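import Pool.Agent.RHK.Fin

/-!
All levels (MP_c2409d_nt), block COMB: interface. `CM D g t`: the embeddings `ζ ↦ ζ^(t i)` form a CM type
of `ℚ(ζ_D)`. `TD D t v`: a theta function with algebraic Taylor coefficients for this type, with periods
`v`. Inputs: `THForm` (existence for every type), `UForm` (uniqueness of the periods modulo algebraic
numbers), `R4Form` (four-term relation), `ThetaForm` and `ArithForm` of project RHK.
-/

set_option autoImplicit false

namespace Pool.Agent.RCM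

open Complex ComplexConjugate Finset Pool.Agent.RHK

noncomputable section

/-- an enumeration of a CM type of `ℚ(ζ_D)` -/
structure CM (D g : ℕ) (t : Fin g → ℕ) : Prop extends Emb D g t where
  two : 2 < D
  inj : ∀ i j, t i ≡ t j [MOD D] → i = j
  opp : ∀ i j, ¬ D ∣ t i + t j

/-- theta data of type `t` with periods `v` (the conclusion of `ThetaForm`) -/
def TD (D : ℕ) {g : ℕ} (t : Fin g → ℕ) (v : Fin g → ℝ) : Prop :=
  ∃ (s : (Fin g → ℂ) → ℂ) (κ : Fin g → ℝ) (N : ℕ), 0 < N ∧ (∀ i, 0 < κ i) ∧ (∀ i, 0 < v i) ∧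
    (∀ i, IsAlgebraic ℚ (κ i / Real.pi)) ∧ Differentiable ℂ s ∧ (∃ z, s z ≠ 0) ∧ AlgTay s ∧
    ∀ c : ℕ → ℤ, QPn (fun z => s (fun i => v i * z i)) κ (fun i => (N : ℂ) * emb D c (t i))

/-- input TH: theta functions with algebraic Taylor coefficients exist for every CM type -/
def THForm : Prop := ∀ (D g : ℕ) (t : Fin g → ℕ), CM D g t → ∃ v : Fin g → ℝ, TD D t v

/-- input U: the periods are unique modulo algebraic numbers -/
def UForm : Prop := ∀ (D g : ℕ) (t : Fin g → ℕ) (v v' : Fin g → ℝ), CM D g t →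
  TD D t v → TD D t v' → ∀ i, IsAlgebraic ℚ (v i / v' i)

/-- input R4: the four-term relation (`t1`, `t2`, `t3`: the type `t` flipped at `a`, at `b`, at both) -/
def R4Form : Prop := ∀ (D g : ℕ) (t t1 t2 t3 : Fin g → ℕ) (a b i : Fin g),
  CM D g t → CM D g t1 → CM D g t2 → CM D g t3 → a ≠ b → i ≠ a → i ≠ b →
  (∀ j, j ≠ a → t1 j = t j) → D ∣ t1 a + t a → (∀ j, j ≠ b → t2 j = t j) → D ∣ t2 b + t b →
  (∀ j, j ≠ a → j ≠ b → t3 j = t j) → t3 a = t1 a → t3 b = t2 b →
  ∃ v v1 v2 v3 : Fin g → ℝ, TD D t v ∧ TD D t1 v1 ∧ TD D t2 v2 ∧ TD D t3 v3 ∧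
    IsAlgebraic ℚ (v i * v3 i / (v1 i * v2 i))

end

end Pool.Agent.RCM
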