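import Pool.Agent.RCM.Cond
import Pool.Agent.RHK.FSpan

/-!
All levels, block COMB, part 11: proportional class functions `m ↦ {m x} - 1/2`.
-/

set_option autoImplicit false

namespace Pool.Agent.RCM

open Finset Pool.Agent.Helper99.Rohr Pool.Agent.ROH Pool.Agent.ROH8 Pool.Agent.RHK

/-- `{m / d} - 1/2` -/
def sw (d m : ℕ) : ℚ := ((m % d : ℕ) : ℚ) / d - 1 / 2

theorem sw_congr {d m m' : ℕ} (h : m ≡ m' [MOD d]) : sw d m = sw d m' := by
  unfold sw
  rw [show m % d = m' % d from h]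

theorem sw_inj {d m m' : ℕ} (hd : 0 < d) (h : sw d m = sw d m') : m ≡ m' [MOD d] := by
  unfold sw at h
  have hd' : (d : ℚ) ≠ 0 := by exact_mod_cast hd.ne'
  have h1 : ((m % d : ℕ) : ℚ) / d = ((m' % d : ℕ) : ℚ) / d := by linarith
  rw [div_left_inj' hd'] at h1
  exact_mod_cast h1

theorem mod_pos {d m : ℕ} (hd : 2 < d) (hm : m.Coprime d) : 0 < m % d := by
  rcases Nat.eq_zero_or_pos (m % d) with h | h
  · exfalso
    have h1 : d ∣ m := Nat.dvd_of_mod_eq_zero h
    have h2 := Nat.dvd_gcd h1 (dvd_refl d)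
    rw [hm] at h2
    have := Nat.le_of_dvd one_pos h2
    omega
  · exact h

theorem sw_one {d : ℕ} (hd : 2 < d) : sw d 1 = -(1 / 2 - 1 / d) := by
  unfold sw
  rw [Nat.mod_eq_of_lt (by omega)]
  push_cast
  ring

theorem u_pos {d : ℕ} (hd : 2 < d) : (0 : ℚ) < 1 / 2 - 1 / d := by
  have : (2 : ℚ) < d := by exact_mod_cast hd
  rw [sub_pos]
  exact one_div_lt_one_div_of_lt two_pos this

theorem sw_abs_le {d m : ℕ} (hd : 2 < d) (hm : m.Coprime d) : |sw d m| ≤ 1 / 2 - 1 / d := by
  have h1 := mod_pos hd hm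
  have h2 := Nat.mod_lt m (show 0 < d by omega)
  have hd' : (0 : ℚ) < d := by
    have : 0 < d := by omega
    exact_mod_cast this
  have h3 : (1 : ℚ) ≤ ((m % d : ℕ) : ℚ) := by exact_mod_cast h1
  have h4 : ((m % d : ℕ) : ℚ) ≤ d - 1 := by
    have : m % d + 1 ≤ d := h2
    have h5 : ((m % d : ℕ) : ℚ) + 1 ≤ d := by exact_mod_cast this
    linarith
  unfold sw
  rw [abs_le]
  constructor
  · have : (1 : ℚ) / d ≤ ((m % d : ℕ) : ℚ) / d := by gcongr
    linarith
  · have h5 : ((m % d : ℕ) : ℚ) / d ≤ (d - 1) / d := by gcongr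
    have h6 : ((d : ℚ) - 1) / d = 1 - 1 / d := by field_simp
    linarith

theorem sw_extreme {d m : ℕ} (hd : 2 < d) (h : |sw d m| = 1 / 2 - 1 / d) :
    m ≡ 1 [MOD d] ∨ d ∣ m + 1 := by
  have hd' : (0 : ℚ) < d := by
    have : 0 < d := by omega
    exact_mod_cast this
  rcases abs_choice (sw d m) with h1 | h1
  · right
    rw [h1] at h
    unfold sw at h
    have h2 : ((m % d : ℕ) : ℚ) / d = 1 - 1 / d := by linarith
    rw [div_eq_iff hd'.ne', sub_mul, one_div, inv_mul_cancel₀ hd'.ne', one_mul] at h2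
    have h3 : ((m % d + 1 : ℕ) : ℚ) = (d : ℚ) := by push_cast; linarith
    have h4 : m % d + 1 = d := by exact_mod_cast h3
    have h5 : m + 1 ≡ m % d + 1 [MOD d] := (Nat.mod_modEq m d).symm.add_right 1
    rw [h4] at h5
    exact (Nat.modEq_zero_iff_dvd).1 (h5.trans (by simp [Nat.ModEq]))
  · left
    rw [h1] at h
    unfold sw at h
    have h2 : ((m % d : ℕ) : ℚ) / d = 1 / d := by linarith
    rw [div_left_inj' hd'.ne'] at h2
    have h3 : m % d = 1 := by exact_mod_cast h2
    show m % d = 1 % d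
    rw [h3, Nat.mod_eq_of_lt (by omega)]

theorem sw_neg {d m m' : ℕ} (hd : 2 < d) (hm : m.Coprime d) (h : d ∣ m + m') :
    sw d m' = -sw d m := by
  have h1 := mod_pos hd hm
  have h2 := Nat.mod_lt m (show 0 < d by omega)
  have hd' : (d : ℚ) ≠ 0 := by
    have : d ≠ 0 := by omega
    exact_mod_cast this
  have h3 : m' % d = d - m % d := by
    have h4 : m' ≡ d - m % d [MOD d] := by
      have h5 : m % d + m' ≡ m % d + (d - m % d) [MOD d] := by
        have h6 : m % d + (d - m % d) = d := by omega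
        rw [h6]
        have h7 : m % d + m' ≡ m + m' [MOD d] := (Nat.mod_modEq m d).add_right m'
        exact h7.trans (((Nat.modEq_zero_iff_dvd).2 h).trans (by simp [Nat.ModEq]))
      exact Nat.ModEq.add_left_cancel' _ h5
    have h8 : m' % d = (d - m % d) % d := h4
    rw [h8, Nat.mod_eq_of_lt (by omega)]
  unfold sw
  rw [h3, Nat.cast_sub h2.le]
  field_simp
  ring

/-- the kernel argument -/
theorem totient_eq {d d' D : ℕ} (hd : 2 < d) (hd' : 2 < d') (hD : 0 < D)
    (h : ∀ m m' : ℕ, m.Coprime D → m'.Coprime D → m ≡ m' [MOD d] → m ≡ m' [MOD d']) :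
    (Nat.lcm d d').totient = d.totient := by
  have hL : 0 < Nat.lcm d d' := Nat.lcm_pos (by omega) (by omega)
  have : NeZero (Nat.lcm d d') := ⟨hL.ne'⟩
  have : NeZero d := ⟨by omega⟩
  have hdvd : d ∣ Nat.lcm d d' := Nat.dvd_lcm_left d d'
  rw [← ZMod.card_units_eq_totient, ← ZMod.card_units_eq_totient]
  apply Fintype.card_of_bijective (f := ZMod.unitsMap hdvd)
  refine ⟨?_, ZMod.unitsMap_surjective hdvd⟩
  intro u v huv
  obtain ⟨m, hm, hmu⟩ := lift_coprime (M := D) hL hD (ZMod.val_coe_unit_coprime u)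
  obtain ⟨m', hm', hmv⟩ := lift_coprime (M := D) hL hD (ZMod.val_coe_unit_coprime v)
  have e : ∀ w : (ZMod (Nat.lcm d d'))ˣ, ((ZMod.unitsMap hdvd w : (ZMod d)ˣ) : ZMod d) =
      (((w : ZMod (Nat.lcm d d')).val : ℕ) : ZMod d) := by
    intro w
    rw [ZMod.unitsMap_val, ZMod.cast_eq_val]
  have h1 : m ≡ m' [MOD d] := by
    have h2 : (u : ZMod (Nat.lcm d d')).val ≡ (v : ZMod (Nat.lcm d d')).val [MOD d] := by
      rw [← ZMod.natCast_eq_natCast_iff, ← e u, ← e v, huv]
    exact ((hmu.of_dvd hdvd).trans h2).trans (hmv.of_dvd hdvd).symm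
  have h2 := h m m' hm hm' h1
  have h3 : m ≡ m' [MOD Nat.lcm d d'] := by
    rw [Nat.modEq_iff_dvd] at h1 h2 ⊢
    have h4 : d ∣ ((m' : ℤ) - m).natAbs := Int.natCast_dvd.1 h1
    have h5 : d' ∣ ((m' : ℤ) - m).natAbs := Int.natCast_dvd.1 h2
    exact Int.natCast_dvd.2 (Nat.lcm_dvd h4 h5)
  have h4 := (hmu.symm.trans h3).trans hmv
  apply Units.ext
  rw [← ZMod.natCast_zmod_val (u : ZMod (Nat.lcm d d')), ← ZMod.natCast_zmod_val
    (v : ZMod (Nat.lcm d d')), ZMod.natCast_eq_natCast_iff]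
  exact h4

theorem quot_le_two {d e : ℕ} (hd : 0 < d) (h : (d * e).totient = d.totient) : e = 1 ∨ e = 2 := by
  have h1 := Nat.totient_super_multiplicative d e
  rw [h] at h1
  have h2 : 0 < d.totient := Nat.totient_pos.2 hd
  have h3 : e.totient ≤ 1 := by
    by_contra h4
    push Not at h4
    nlinarith
  have he : 0 < e := by
    rcases Nat.eq_zero_or_pos e with h4 | h4
    · rw [h4, mul_zero, Nat.totient_zero] at h
      omega
    · exact h4
  have h4 : 0 < e.totient := Nat.totient_pos.2 he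
  exact (Nat.totient_eq_one_iff).1 (by omega)

/-- the case `d' = 2 d` -/
theorem double_case {d D : ℕ} (hd : 2 < d) (hD : 0 < D)
    (hφ : (2 * d).totient = d.totient) {γ : ℚ}
    (h : ∀ m : ℕ, m.Coprime D → sw d m = γ * sw (2 * d) m) : d = 3 := by
  have hodd : ¬ 2 ∣ d := by
    intro h2
    rw [Nat.totient_mul_of_prime_of_dvd Nat.prime_two h2] at hφ
    have := Nat.totient_pos.2 (show 0 < d by omega)
    omega
  have hc : Nat.Coprime (d + 2) (2 * d) := by
    have h1 : Nat.Coprime (d + 2) 2 := by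
      rw [Nat.coprime_comm, Nat.Prime.coprime_iff_not_dvd Nat.prime_two]
      omega
    have h2 : Nat.Coprime (d + 2) d := by
      rw [Nat.coprime_comm, Nat.coprime_self_add_right, Nat.coprime_comm,
        Nat.Prime.coprime_iff_not_dvd Nat.prime_two]
      exact hodd
    exact Nat.Coprime.mul_right h1 h2
  obtain ⟨m, hm, hmm⟩ := lift_coprime (M := D) (show 0 < 2 * d by omega) hD hc
  obtain ⟨m1, hm1, hmm1⟩ := lift_coprime (M := D) (show 0 < 2 * d by omega) hD
    (Nat.coprime_one_left (2 * d))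
  have e1 := h m hm
  have e2 := h m1 hm1
  rw [sw_congr hmm, sw_congr (hmm.of_dvd (Dvd.intro_left 2 rfl))] at e1
  rw [sw_congr hmm1, sw_congr (hmm1.of_dvd (Dvd.intro_left 2 rfl)), sw_one hd,
    sw_one (show 2 < 2 * d by omega)] at e2
  have hdq : (2 : ℚ) < d := by exact_mod_cast hd
  have hd0 : (d : ℚ) ≠ 0 := by linarith
  have f1 : sw d (d + 2) = 2 / d - 1 / 2 := by
    unfold sw
    rw [Nat.add_mod_left, Nat.mod_eq_of_lt hd]
    push_cast
    ring
  have f2 : sw (2 * d) (d + 2) = 1 / d := by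
    unfold sw
    rw [Nat.mod_eq_of_lt (by omega)]
    push_cast
    field_simp
    ring
  rw [f1, f2] at e1
  push_cast at e2
  have g1 : 4 - (d : ℚ) = 2 * γ := by
    field_simp at e1
    linarith
  have g2 : ((d : ℚ) - 2) = γ * (d - 1) := by
    field_simp at e2
    linarith
  have g3 : (d : ℚ) * (d - 3) = 0 := by
    have : 2 * ((d : ℚ) - 2) = (4 - d) * (d - 1) := by rw [g1, g2]; ring
    linarith
  rcases mul_eq_zero.1 g3 with g4 | g4
  · exact absurd g4 hd0
  · have : (d : ℚ) = 3 := by linarith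
    exact_mod_cast this

/-- **proportional class functions**, natural number form -/
theorem prop_nat {d d' D : ℕ} (hd : 2 < d) (hd' : 2 < d') (hD : 0 < D) (hdD : d ∣ D)
    (hdD' : d' ∣ D) {a a' : ℕ} (ha : a.Coprime d) (ha' : a'.Coprime d') {α β : ℚ}
    (hne : α ≠ 0 ∨ β ≠ 0)
    (h : ∀ m : ℕ, m.Coprime D → α * sw d (m * a) + β * sw d' (m * a') = 0) :
    (d = d' ∧ (a ≡ a' [MOD d] ∨ d ∣ a + a')) ∨ (d ∣ 6 ∧ d' ∣ 6) := by
  -- reduction to `a = 1`
  have inv : ∀ {d a : ℕ}, 2 < d → a.Coprime d → ∃ b : ℕ, b.Coprime d ∧ b * a ≡ 1 [MOD d] := by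
    intro d a hd ha
    obtain ⟨b, -, hb⟩ := Nat.exists_mul_mod_eq_one_of_coprime ha (by omega : 1 < d)
    refine ⟨b, ?_, ?_⟩
    · have h1 : (a * b).Coprime d := by
        have h2 : a * b ≡ 1 [MOD d] := by
          show (a * b) % d = 1 % d
          rw [hb, Nat.mod_eq_of_lt (by omega)]
        exact (h2.gcd_eq).trans (Nat.coprime_one_left d)
      exact Nat.Coprime.coprime_mul_left h1
    · show (b * a) % d = 1 % d
      rw [mul_comm, hb, Nat.mod_eq_of_lt (by omega)]
  obtain ⟨c, hc, hca⟩ := inv hd ha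
  obtain ⟨m0, hm0, hm0c⟩ := lift_coprime (M := D) (show 0 < d by omega) hD hc
  have hm0a : m0 * a ≡ 1 [MOD d] := (hm0c.mul_right a).trans hca
  set b := m0 * a' with hb
  have hbc : b.Coprime d' := Nat.Coprime.mul_left (hm0.coprime_dvd_right hdD') ha'
  have h1 : ∀ m : ℕ, m.Coprime D → α * sw d m + β * sw d' (m * b) = 0 := by
    intro m hm
    have h2 := h (m * m0) (Nat.Coprime.mul_left hm hm0)
    have h3 : m * m0 * a ≡ m [MOD d] := by
      rw [mul_assoc]
      have := hm0a.mul_left m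
      rwa [mul_one] at this
    rw [sw_congr h3, mul_assoc] at h2
    exact h2
  -- extremal values
  have hu := u_pos hd
  have hu' := u_pos hd'
  have hcop : ∀ {m : ℕ}, m.Coprime D → m.Coprime d := fun hm => hm.coprime_dvd_right hdD
  have hcop' : ∀ {m : ℕ}, m.Coprime D → m.Coprime d' := fun hm => hm.coprime_dvd_right hdD'
  obtain ⟨c', hc', hcb⟩ := inv hd' hbc
  obtain ⟨m1, hm1, hm1c⟩ := lift_coprime (M := D) (show 0 < d' by omega) hD hc'
  have hm1b : m1 * b ≡ 1 [MOD d'] := (hm1c.mul_right b).trans hcb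
  have r1 := h1 1 (Nat.coprime_one_left D)
  have r2 := h1 m1 hm1
  rw [one_mul, sw_one hd] at r1
  rw [sw_congr hm1b, sw_one hd'] at r2
  have k1 : |α| * (1 / 2 - 1 / d) = |β| * |sw d' b| := by
    have : α * (1 / 2 - 1 / (d : ℚ)) = β * sw d' b := by linarith
    rw [← abs_mul, ← this, abs_mul, abs_of_pos hu]
  have k2 : |β| * (1 / 2 - 1 / d') = |α| * |sw d m1| := by
    have : β * (1 / 2 - 1 / (d' : ℚ)) = α * sw d m1 := by linarith
    rw [← abs_mul, ← this, abs_mul, abs_of_pos hu']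
  have k3 := sw_abs_le hd (hcop hm1)
  have k4 := sw_abs_le hd' hbc
  have hβ : β ≠ 0 := by
    intro h0
    rw [h0, abs_zero, zero_mul] at k1
    rcases mul_eq_zero.1 k1 with h2 | h2
    · rcases hne with h3 | h3
      · exact h3 (abs_eq_zero.1 h2)
      · exact h3 h0
    · exact hu.ne' h2
  have hα : α ≠ 0 := by
    intro h0
    rw [h0, abs_zero, zero_mul] at k2
    rcases mul_eq_zero.1 k2 with h2 | h2
    · exact hβ (abs_eq_zero.1 h2)
    · exact hu'.ne' h2
  have hβ0 : 0 < |β| := abs_pos.2 hβ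
  have hα0 : 0 < |α| := abs_pos.2 hα
  have k5 : |sw d' b| = 1 / 2 - 1 / d' := by
    apply le_antisymm k4
    have h2 : |β| * (1 / 2 - 1 / d') ≤ |β| * |sw d' b| := by
      rw [k2, ← k1]
      exact mul_le_mul_of_nonneg_left k3 hα0.le
    exact le_of_mul_le_mul_left h2 hβ0
  have hb1 := sw_extreme hd' k5
  -- the relation without multipliers
  obtain ⟨γ, hγ0, hγ⟩ : ∃ γ : ℚ, γ ≠ 0 ∧ ∀ m : ℕ, m.Coprime D → sw d m = γ * sw d' m := by
    rcases hb1 with h2 | h2
    · refine ⟨-(β / α), neg_ne_zero.2 (div_ne_zero hβ hα), fun m hm => ?_⟩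
      have h3 := h1 m hm
      have h4 : m * b ≡ m [MOD d'] := by
        have := h2.mul_left m
        rwa [mul_one] at this
      rw [sw_congr h4] at h3
      field_simp
      linarith
    · refine ⟨β / α, div_ne_zero hβ hα, fun m hm => ?_⟩
      have h3 := h1 m hm
      have h4 : d' ∣ m + m * b := by
        have : m + m * b = m * (b + 1) := by ring
        rw [this]
        exact h2.mul_left m
      rw [sw_neg hd' (hcop' hm) h4] at h3
      field_simp
      linarith
  have hto : ∀ m m' : ℕ, m.Coprime D → m'.Coprime D → m ≡ m' [MOD d] → m ≡ m' [MOD d'] := by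
    intro m m' hm hm' hmm
    apply sw_inj (by omega)
    have h2 := sw_congr hmm
    rw [hγ m hm, hγ m' hm'] at h2
    exact mul_left_cancel₀ hγ0 h2
  have hfrom : ∀ m m' : ℕ, m.Coprime D → m'.Coprime D → m ≡ m' [MOD d'] → m ≡ m' [MOD d] := by
    intro m m' hm hm' hmm
    apply sw_inj (by omega)
    rw [hγ m hm, hγ m' hm', sw_congr hmm]
  have t1 := totient_eq hd hd' hD hto
  have t2 := totient_eq hd' hd hD hfrom
  rw [Nat.lcm_comm] at t2
  obtain ⟨e, he⟩ := Nat.dvd_lcm_left d d'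
  obtain ⟨e', he'⟩ := Nat.dvd_lcm_right d d'
  have q1 := quot_le_two (show 0 < d by omega) (by rw [← he]; exact t1)
  have q2 := quot_le_two (show 0 < d' by omega) (by rw [← he']; exact t2)
  by_cases hdd : d = d'
  · left
    subst hdd
    refine ⟨rfl, ?_⟩
    rcases hb1 with h2 | h2
    · left
      -- `a' ≡ a m0 a' ≡ a`
      have h3 : a * (m0 * a') ≡ a * 1 [MOD d] := h2.mul_left a
      have h4 : a * (m0 * a') ≡ 1 * a' [MOD d] := by
        have := hm0a.mul_right a'
        rwa [mul_comm m0 a, mul_assoc] at this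
      rw [mul_one] at h3
      rw [one_mul] at h4
      exact h3.symm.trans h4
    · right
      have h3 : d ∣ a * (b + 1) := h2.mul_left a
      have h4 : a * (b + 1) ≡ a' + a [MOD d] := by
        have h5 : a * (b + 1) = m0 * a * a' + a := by rw [hb]; ring
        rw [h5]
        have := (hm0a.mul_right a').add_right a
        rwa [one_mul] at this
      rw [add_comm]
      exact (Nat.modEq_zero_iff_dvd).1 (h4.symm.trans ((Nat.modEq_zero_iff_dvd).2 h3))
  · right
    have hcases : d' = 2 * d ∨ d = 2 * d' := by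
      rcases q1 with h2 | h2 <;> rcases q2 with h3 | h3 <;> subst h2 <;> subst h3 <;> omega
    rcases hcases with h2 | h2
    · subst h2
      have hl : Nat.lcm d (2 * d) = 2 * d := Nat.lcm_eq_right (Dvd.intro_left 2 rfl)
      rw [hl] at t1
      have h3 := double_case hd hD t1 hγ
      subst h3
      exact ⟨by norm_num, by norm_num⟩
    · subst h2
      have hl : Nat.lcm (2 * d') d' = 2 * d' := Nat.lcm_eq_left (Dvd.intro_left 2 rfl)
      rw [hl] at t2
      have h3 := double_case (γ := γ⁻¹) hd' hD t2 (fun m hm => by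
        rw [hγ m hm, inv_mul_cancel_left₀ hγ0])
      subst h3
      exact ⟨by norm_num, by norm_num⟩

end Pool.Agent.RCM
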