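import Pool.Agent.RCM.Theta
import Pool.Agent.RCM.PropS
import Pool.Agent.GP.DedMi

/-!
All levels, block COMB, part 12: `π` and `Γ(x)` are algebraically independent for all rational `x`
with `2 x` not an integer, except for at most one class `± x₀ + ℤ`.
-/

set_option autoImplicit false

namespace Pool.Agent.RCM

open Finset IntermediateField Pool.Agent.Helper99.Rohr Pool.Agent.ROH Pool.Agent.ROH8
  Pool.Agent.RHK

theorem fract_ne' {x : ℚ} (h : ∀ z : ℤ, x ≠ z) : Int.fract x ≠ 0 := by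
  intro h0
  apply h ⌊x⌋
  have h1 := Int.floor_add_fract x
  rw [h0, add_zero] at h1
  exact h1.symm

/-- a point of `(0, 1)` other than `1/2` as a fraction -/
theorem pt_frac {y : ℚ} (h0 : 0 < y) (h1 : y < 1) (h2 : y ≠ 1 / 2) :
    2 < y.den ∧ (y.num.toNat).Coprime y.den ∧ 0 < y.num.toNat ∧ y.num.toNat < y.den ∧
      y = ((y.num.toNat : ℕ) : ℚ) / y.den := by
  have hn : 0 < y.num := Rat.num_pos.2 h0
  have hc : ((y.num.toNat : ℕ) : ℤ) = y.num := Int.toNat_of_nonneg hn.le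
  have hy : y = ((y.num.toNat : ℕ) : ℚ) / y.den := by
    have h3 : ((y.num.toNat : ℕ) : ℚ) = (y.num : ℚ) := by exact_mod_cast hc
    rw [h3, Rat.num_div_den]
  have hd0 : (0 : ℚ) < y.den := by exact_mod_cast y.pos
  have hlt : y.num.toNat < y.den := by
    have h4 : ((y.num.toNat : ℕ) : ℚ) / y.den < 1 := by rw [← hy]; exact h1
    rw [div_lt_one hd0] at h4
    exact_mod_cast h4
  have hpos : 0 < y.num.toNat := by omega
  have hcop : (y.num.toNat).Coprime y.den := by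
    have h5 := y.reduced
    have h6 : y.num.natAbs = y.num.toNat := by omega
    rwa [h6] at h5
  refine ⟨?_, hcop, hpos, hlt, hy⟩
  by_contra h5
  push Not at h5
  have h6 : y.den = 2 := by omega
  have h7 : y.num.toNat = 1 := by omega
  apply h2
  rw [hy, h6, h7]
  norm_num

theorem saw_eq_sw (m a d : ℕ) : saw m ((a : ℚ) / d) = sw d (m * a) := by
  unfold saw sw
  have h1 : (m : ℚ) * ((a : ℚ) / d) = ((m * a : ℕ) : ℚ) / d := by
    push_cast
    ring
  rw [h1, Int.fract_div_natCast_eq_div_natCast_mod]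

theorem dep_points {D : ℕ} (hD : 2 < D) {y y' : ℚ} (hy : IsPt D y) (hy' : IsPt D y')
    (h2 : y ≠ 1 / 2) (h2' : y' ≠ 1 / 2) {α β : ℚ} (hne : α ≠ 0 ∨ β ≠ 0)
    (h : α • Sf D y + β • Sf D y' = 0) :
    y = y' ∨ y + y' = 1 ∨ ((∃ z : ℤ, 6 * y = z) ∧ ∃ z : ℤ, 6 * y' = z) := by
  have : NeZero D := ⟨by omega⟩
  have hD0 : 0 < D := by omega
  obtain ⟨hd, hc, hp, hl, he⟩ := pt_frac hy.1 hy.2.1 h2
  obtain ⟨hd', hc', hp', hl', he'⟩ := pt_frac hy'.1 hy'.2.1 h2'
  have hdiv : ∀ {y : ℚ}, (∃ z : ℤ, (D : ℚ) * y = z) → y.den ∣ D := by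
    rintro y ⟨z, hz⟩
    have h3 : y = (z : ℚ) / (D : ℤ) := by
      have : (D : ℚ) ≠ 0 := by exact_mod_cast hD0.ne'
      push_cast
      field_simp
      linarith
    have h4 : ((((z : ℚ) / ((D : ℤ) : ℚ)).den : ℕ) : ℤ) ∣ (D : ℤ) := by
      rw [← Rat.divInt_eq_div]
      exact Rat.den_dvd z D
    rw [← h3] at h4
    exact_mod_cast h4
  have hrel : ∀ m : ℕ, m.Coprime D →
      α * sw y.den (m * y.num.toNat) + β * sw y'.den (m * y'.num.toNat) = 0 := by
    intro m hm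
    obtain ⟨t, ht⟩ := unit_of hm
    have h3 := congrFun h t
    have e1 : saw m y = sw y.den (m * y.num.toNat) := by
      conv_lhs => rw [he]
      exact saw_eq_sw m _ _
    have e2 : saw m y' = sw y'.den (m * y'.num.toNat) := by
      conv_lhs => rw [he']
      exact saw_eq_sw m _ _
    rw [Pi.add_apply, Pi.smul_apply, Pi.smul_apply, smul_eq_mul, smul_eq_mul, Pi.zero_apply,
      Sf_apply ht hy.2.2, Sf_apply ht hy'.2.2, e1, e2] at h3
    exact h3
  have hq : ∀ {y : ℚ}, y = ((y.num.toNat : ℕ) : ℚ) / y.den → y.den ∣ 6 → ∃ z : ℤ, 6 * y = z := by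
    rintro y hy ⟨e, he⟩
    refine ⟨e * y.num, ?_⟩
    have h3 : (6 : ℚ) = y.den * e := by exact_mod_cast he
    have h4 := Rat.num_div_den y
    have h5 : (y.den : ℚ) ≠ 0 := by exact_mod_cast y.den_nz
    rw [h3]
    push_cast
    nth_rewrite 2 [← h4]
    field_simp
  rcases prop_nat hd hd' hD0 (hdiv hy.2.2) (hdiv hy'.2.2) hc hc' hne hrel with
    ⟨hdd, h3 | h3⟩ | ⟨h3, h4⟩
  · left
    have h4 : y.num.toNat = y'.num.toNat := by
      have h5 : y.num.toNat % y.den = y'.num.toNat % y.den := h3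
      rw [Nat.mod_eq_of_lt hl, Nat.mod_eq_of_lt (by rw [hdd]; exact hl')] at h5
      exact h5
    rw [he, he', h4, hdd]
  · right; left
    obtain ⟨k, hk⟩ := h3
    have hk1 : k = 1 := by
      rcases Nat.lt_or_ge k 1 with h5 | h5
      · have : k = 0 := by omega
        rw [this] at hk
        omega
      · rcases Nat.lt_or_ge 1 k with h6 | h6
        · have h7 : y.den * 2 ≤ y.den * k := Nat.mul_le_mul_left _ h6
          have h8 : y'.num.toNat < y.den := by rw [hdd]; exact hl'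
          omega
        · omega
    rw [hk1, mul_one] at hk
    rw [he, he', ← hdd, ← add_div]
    have h5 : ((y.num.toNat : ℕ) : ℚ) + ((y'.num.toNat : ℕ) : ℚ) = y.den := by exact_mod_cast hk
    have h6 : (y.den : ℚ) ≠ 0 := by exact_mod_cast y.den_nz
    rw [h5, div_self h6]
  · right; right
    exact ⟨hq he h3, hq he' h4⟩

theorem range_one (θ : ℂ) : Set.range (fun _ : Fin 1 => θ) = {θ} := Set.range_const

/-- two gamma values algebraic over the same `ℚ(θ)` -/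
theorem two_points (hT : TrAll) (θ : ℂ) {y y' : ℚ} (h0 : 0 < y) (h1 : y < 1) (h2 : y ≠ 1 / 2)
    (h0' : 0 < y') (h1' : y' < 1) (h2' : y' ≠ 1 / 2) (h : lg y ∈ LogF ℚ⟮θ⟯)
    (h' : lg y' ∈ LogF ℚ⟮θ⟯) :
    y = y' ∨ y + y' = 1 ∨ ((∃ z : ℤ, 6 * y = z) ∧ ∃ z : ℤ, 6 * y' = z) := by
  set D := 3 * y.den * y'.den with hDdef
  have hD : 2 < D := by
    have h3 := y.pos
    have h4 := y'.pos
    have h5 : 0 < y.den * y'.den := Nat.mul_pos h3 h4
    rw [hDdef, mul_assoc]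
    omega
  have hy : IsPt D y := by
    refine ⟨h0, h1, 3 * y'.den * y.num, ?_⟩
    have h3 := Rat.mul_den_eq_num y
    rw [hDdef]
    push_cast
    rw [← h3]
    ring
  have hy' : IsPt D y' := by
    refine ⟨h0', h1', 3 * y.den * y'.num, ?_⟩
    have h3 := Rat.mul_den_eq_num y'
    rw [hDdef]
    push_cast
    rw [← h3]
    ring
  have : NeZero D := ⟨by omega⟩
  have hnot : ¬ LinearIndependent ℚ ![Sf D y, Sf D y'] := by
    intro hli
    have h3 := dim_le hT hD (fun _ : Fin 1 => θ) (χ := ![Sf D y, Sf D y']) (X := ![lg y, lg y'])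
      (by
        intro i
        fin_cases i
        · exact gm_sf hy
        · exact gm_sf hy')
      (by
        intro i
        fin_cases i
        · exact Sf_odd hy
        · exact Sf_odd hy')
      (by
        intro i
        rw [range_one]
        fin_cases i
        · exact h
        · exact h') hli
    omega
  rw [LinearIndependent.pair_iff] at hnot
  push Not at hnot
  obtain ⟨s, t, hst, hne⟩ := hnot
  refine dep_points hD hy hy' h2 h2' (α := s) (β := t) ?_ hst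
  by_cases hs : s = 0
  · exact Or.inr (hne hs)
  · exact Or.inl hs

/-! ## Chudnovsky's theorems -/

theorem chud_base {y : ℚ} (h0 : 0 < y)
    (hT : Transcendental ℚ⟮(Real.pi : ℂ)⟯ ((Real.Gamma y / Real.sqrt Real.pi : ℝ) : ℂ)) :
    lg y ∉ LogF ℚ⟮(Real.pi : ℂ)⟯ := by
  intro h
  rw [mem_LogF, exp_lg h0] at h
  exact hT h

theorem chud3 : lg (1 / 3) ∉ LogF ℚ⟮(Real.pi : ℂ)⟯ := by
  apply chud_base (by norm_num)
  have := trans_div gamma3
  push_cast at this ⊢
  exact this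

theorem chud4 : lg (1 / 4) ∉ LogF ℚ⟮(Real.pi : ℂ)⟯ := by
  apply chud_base (by norm_num)
  have := trans_div gamma4
  push_cast at this ⊢
  exact this

theorem refl_mem {F : IntermediateField ℚ ℂ} {y : ℚ} (h0 : 0 < y) (h1 : y < 1)
    (h : lg (1 - y) ∈ LogF F) : lg y ∈ LogF F := by
  have h2 := logAlg_le F (lg_refl h0 h1)
  have h3 := (LogF F).sub_mem h2 h
  rwa [add_sub_cancel_left] at h3

theorem lg6 : lg (1 / 6) - 2 * lg (1 / 3) ∈ LogAlg := by
  have h := ko (N := 6) (by norm_num) (univ : Finset (Fin 2)) ![1, -2] ![1 / 6, 1 / 3] (by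
    intro i _
    fin_cases i
    · exact ⟨by norm_num, by norm_num, 1, by norm_num⟩
    · exact ⟨by norm_num, by norm_num, 2, by norm_num⟩) (by
    intro m hm
    rw [Fin.sum_univ_two]
    show (1 : ℚ) * saw m (1 / 6) + (-2) * saw m (1 / 3) = 0
    have e1 : saw m (1 / 6) = sw 6 (m * 1) := by
      have := saw_eq_sw m 1 6
      push_cast at this
      exact this
    have e2 : saw m (1 / 3) = sw 3 (m * 1) := by
      have := saw_eq_sw m 1 3
      push_cast at this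
      exact this
    rw [e1, e2, mul_one]
    have h15 : m % 6 = 1 ∨ m % 6 = 5 := by
      have h3 : m % 6 < 6 := Nat.mod_lt _ (by norm_num)
      have hmod : (m % 6).Coprime 6 := ((Nat.mod_modEq m 6).gcd_eq).trans hm
      interval_cases (m % 6) <;> revert hmod <;> decide
    unfold sw
    rcases h15 with h5 | h5
    · have h6 : m % 3 = 1 := by omega
      rw [h5, h6]
      norm_num
    · have h6 : m % 3 = 2 := by omega
      rw [h5, h6]
      norm_num)
  rw [Fin.sum_univ_two] at h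
  have e : ((![1, -2] : Fin 2 → ℚ) 0 : ℝ) * lg ((![1 / 6, 1 / 3] : Fin 2 → ℚ) 0) +
      ((![1, -2] : Fin 2 → ℚ) 1 : ℝ) * lg ((![1 / 6, 1 / 3] : Fin 2 → ℚ) 1) =
      lg (1 / 6) - 2 * lg (1 / 3) := by
    simp
    ring
  rw [e] at h
  exact h

theorem chud6 : lg (1 / 6) ∉ LogF ℚ⟮(Real.pi : ℂ)⟯ := by
  intro h
  have h2 := logAlg_le ℚ⟮(Real.pi : ℂ)⟯ lg6
  have h3 := (LogF ℚ⟮(Real.pi : ℂ)⟯).sub_mem h h2
  have h4 : lg (1 / 6) - (lg (1 / 6) - 2 * lg (1 / 3)) = ((2 : ℚ) : ℝ) * lg (1 / 3) := by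
    push_cast
    ring
  rw [h4] at h3
  have h5 := (LogF ℚ⟮(Real.pi : ℂ)⟯).smul_mem (1 / 2 : ℚ) h3
  rw [Rat.smul_def] at h5
  have h6 : ((1 / 2 : ℚ) : ℝ) * (((2 : ℚ) : ℝ) * lg (1 / 3)) = lg (1 / 3) := by
    push_cast
    ring
  rw [h6] at h5
  exact chud3 h5

theorem chud_six {y : ℚ} (h0 : 0 < y) (h1 : y < 1) (h2 : y ≠ 1 / 2) (h6 : ∃ z : ℤ, 6 * y = z) :
    lg y ∉ LogF ℚ⟮(Real.pi : ℂ)⟯ := by
  obtain ⟨z, hz⟩ := h6
  have hz0 : 0 < z := by
    have : (0 : ℚ) < z := by rw [← hz]; positivity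
    exact_mod_cast this
  have hz6 : z < 6 := by
    have : (z : ℚ) < 6 := by rw [← hz]; linarith
    exact_mod_cast this
  have hy : y = (z : ℚ) / 6 := by rw [← hz]; ring
  have hz3 : z ≠ 3 := by
    rintro rfl
    apply h2
    rw [hy]
    norm_num
  have hc : z = 1 ∨ z = 2 ∨ z = 4 ∨ z = 5 := by omega
  intro h
  rcases hc with rfl | rfl | rfl | rfl
  · apply chud6
    rw [hy] at h
    norm_num at h ⊢
    exact h
  · apply chud3
    rw [hy] at h
    norm_num at h ⊢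
    exact h
  · apply chud3
    apply refl_mem (by norm_num) (by norm_num)
    rw [hy] at h
    norm_num at h ⊢
    exact h
  · apply chud6
    apply refl_mem (by norm_num) (by norm_num)
    rw [hy] at h
    norm_num at h ⊢
    exact h

theorem chud_four {y : ℚ} (h0 : 0 < y) (h1 : y < 1) (h2 : y ≠ 1 / 2) (h4 : ∃ z : ℤ, 4 * y = z) :
    lg y ∉ LogF ℚ⟮(Real.pi : ℂ)⟯ := by
  obtain ⟨z, hz⟩ := h4
  have hz0 : 0 < z := by
    have : (0 : ℚ) < z := by rw [← hz]; positivity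
    exact_mod_cast this
  have hz6 : z < 4 := by
    have : (z : ℚ) < 4 := by rw [← hz]; linarith
    exact_mod_cast this
  have hy : y = (z : ℚ) / 4 := by rw [← hz]; ring
  have hz3 : z ≠ 2 := by
    rintro rfl
    apply h2
    rw [hy]
    norm_num
  have hc : z = 1 ∨ z = 3 := by omega
  intro h
  rcases hc with rfl | rfl
  · apply chud4
    rw [hy] at h
    norm_num at h ⊢
    exact h
  · apply chud4
    apply refl_mem (by norm_num) (by norm_num)
    rw [hy] at h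
    norm_num at h ⊢
    exact h

/-- **all gamma values but one class are transcendental over `ℚ(π)`** -/
theorem pi_gamma (hT : TrAll) : ∃ x₀ : ℚ, 5 ≤ x₀.den ∧ x₀.den ≠ 6 ∧
    ∀ y : ℚ, 0 < y → y < 1 → y ≠ 1 / 2 → y ≠ x₀ → y ≠ 1 - x₀ →
      lg y ∉ LogF ℚ⟮(Real.pi : ℂ)⟯ := by
  by_cases hex : ∃ y : ℚ, 0 < y ∧ y < 1 ∧ y ≠ 1 / 2 ∧ lg y ∈ LogF ℚ⟮(Real.pi : ℂ)⟯
  · obtain ⟨y, h0, h1, h2, h⟩ := hex
    have hden : ∀ n : ℕ, y.den ∣ n → ∃ z : ℤ, (n : ℚ) * y = z := by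
      rintro n ⟨e, he⟩
      refine ⟨e * y.num, ?_⟩
      have h3 := Rat.mul_den_eq_num y
      rw [he]
      push_cast
      rw [← h3]
      ring
    have h6 : ¬ y.den ∣ 6 := fun h6 => chud_six h0 h1 h2 (by exact_mod_cast hden 6 h6) h
    have h4 : ¬ y.den ∣ 4 := fun h4 => chud_four h0 h1 h2 (by exact_mod_cast hden 4 h4) h
    refine ⟨y, ?_, ?_, ?_⟩
    · by_contra h5
      push Not at h5
      have hpos := y.pos
      have : y.den = 1 ∨ y.den = 2 ∨ y.den = 3 ∨ y.den = 4 := by omega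
      rcases this with h7 | h7 | h7 | h7 <;> rw [h7] at h6 h4
      · exact h6 (by norm_num)
      · exact h6 (by norm_num)
      · exact h6 (by norm_num)
      · exact h4 (by norm_num)
    · intro h7
      rw [h7] at h6
      exact h6 (by norm_num)
    · intro y' h0' h1' h2' hne hne' h'
      rcases two_points hT (Real.pi : ℂ) h0' h1' h2' h0 h1 h2 h' h with h3 | h3 | ⟨-, h3⟩
      · exact hne h3
      · exact hne' (by linarith)
      · exact chud_six h0 h1 h2 h3 h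
  · push Not at hex
    refine ⟨1 / 5, ?_, ?_, fun y h0 h1 h2 _ _ => hex y h0 h1 h2⟩
    · have : ((1 : ℚ) / 5).den = 5 := by norm_num
      rw [this]
    · have : ((1 : ℚ) / 5).den = 5 := by norm_num
      rw [this]
      norm_num

/-- the same for arbitrary rationals -/
theorem pi_gamma_all (hT : TrAll) : ∃ x₀ : ℚ, 5 ≤ x₀.den ∧ x₀.den ≠ 6 ∧
    ∀ x : ℚ, (∀ z : ℤ, 2 * x ≠ z) → (∀ z : ℤ, x ≠ x₀ + z ∧ x ≠ -x₀ + z) →
      AlgebraicIndependent ℚ ![Real.pi, Real.Gamma x] ∧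
      AlgebraicIndependent ℚ ![Real.pi, Real.Gamma ((Int.fract x : ℚ) : ℝ)] := by
  obtain ⟨x₀, h5, h6, h⟩ := pi_gamma hT
  refine ⟨x₀, h5, h6, fun x hx hx0 => ?_⟩
  have hf0 : Int.fract x ≠ 0 := by
    intro h0
    apply hx (2 * ⌊x⌋)
    have h1 := Int.floor_add_fract x
    rw [h0, add_zero] at h1
    push_cast
    rw [h1]
  have hni : ∀ z : ℤ, x ≠ z := by
    intro z hz
    apply hx (2 * z)
    rw [hz]
    push_cast
    ring
  have hpos : 0 < Int.fract x := lt_of_le_of_ne (Int.fract_nonneg x) (Ne.symm hf0)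
  have hlt := Int.fract_lt_one x
  have hhalf : Int.fract x ≠ 1 / 2 := by
    intro h1
    apply hx (2 * ⌊x⌋ + 1)
    have h2 := Int.floor_add_fract x
    rw [h1] at h2
    push_cast
    linarith
  have hfl : x = Int.fract x + ⌊x⌋ := (Int.fract_add_floor x).symm
  have hT1 := h (Int.fract x) hpos hlt hhalf
    (fun h1 => (hx0 ⌊x⌋).1 (by rw [← h1]; exact hfl))
    (fun h1 => (hx0 (⌊x⌋ + 1)).2 (by
      push_cast
      rw [hfl, h1]
      have : ⌊1 - x₀ + (⌊x⌋ : ℚ)⌋ = ⌊x⌋ := by rw [← h1, ← hfl]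
      rw [this]
      ring))
  have hG : Transcendental ℚ⟮(Real.pi : ℂ)⟯ ((Real.Gamma ((Int.fract x : ℚ) : ℝ) : ℝ) : ℂ) := by
    intro h1
    apply hT1
    rw [mem_LogF, exp_lg hpos]
    have h2 : IsAlgebraic ℚ⟮(Real.pi : ℂ)⟯ ((Real.sqrt Real.pi : ℝ) : ℂ) := by
      apply alg_int
      rw [Real.sq_sqrt Real.pi_pos.le]
      exact GP.DedM.self_alg _
    rw [Complex.ofReal_div, div_eq_mul_inv]
    exact h1.mul h2.inv
  have hpi := GP.DedM.pi_transcendental GP.DedM.thmAll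
  refine ⟨?_, GP.DedM.algInd hpi hG⟩
  apply GP.DedM.algInd hpi
  obtain ⟨q, hq, hqg⟩ := gamma_fract hni
  intro h1
  apply hG
  have h2 : ((Real.Gamma ((Int.fract x : ℚ) : ℝ) : ℝ) : ℂ) = ((q : ℚ) : ℂ)⁻¹ * ((Real.Gamma x : ℝ) : ℂ) := by
    have hq' : ((q : ℚ) : ℂ) ≠ 0 := by exact_mod_cast hq
    rw [hqg]
    push_cast
    field_simp
  rw [h2]
  refine IsAlgebraic.mul ?_ h1
  apply IsAlgebraic.inv
  have : ((q : ℚ) : ℂ) = algebraMap ℚ⟮(Real.pi : ℂ)⟯ ℂ ((q : ℚ) : ℚ⟮(Real.pi : ℂ)⟯) := by simp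
  rw [this]
  exact isAlgebraic_algebraMap _

end Pool.Agent.RCM
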