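import Pool.Agent.RCM.LinI

/-!
All levels, block COMB, part 10: gamma monomials algebraic over a field generated by `q` numbers:
their class functions span a space of dimension at most `q`.
-/

set_option autoImplicit false

namespace Pool.Agent.RCM

open Finset Pool.Agent.Helper99.Rohr Pool.Agent.ROH Pool.Agent.ROH8 Pool.Agent.RHK

/-- pairs of a class function and the logarithm of a gamma monomial -/
noncomputable def GM (D : ℕ) : Submodule ℚ (((ZMod D)ˣ → ℚ) × ℝ) :=
  Submodule.span ℚ (Set.range fun x : {x : ℚ // IsPt D x} => (Sf D (x : ℚ), lg (x : ℚ))) ⊔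
    Submodule.prod ⊥ LogAlgQ

theorem gm_sf {D : ℕ} {x : ℚ} (hx : IsPt D x) : (Sf D x, lg x) ∈ GM D :=
  Submodule.mem_sup_left (Submodule.subset_span ⟨⟨x, hx⟩, rfl⟩)

theorem gm_alg {D : ℕ} {y : ℝ} (hy : y ∈ LogAlg) : ((0 : (ZMod D)ˣ → ℚ), y) ∈ GM D :=
  Submodule.mem_sup_right (Submodule.mem_prod.2 ⟨Submodule.zero_mem _, hy⟩)

/-- the gamma monomials with class function zero are algebraic -/
theorem gm_zero {D : ℕ} (hD : 0 < D) {y : ℝ} (h : ((0 : (ZMod D)ˣ → ℚ), y) ∈ GM D) :
    y ∈ LogAlg := by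
  classical
  obtain ⟨p, hp, r, hr, hpr⟩ := Submodule.mem_sup.1 h
  obtain ⟨hr1, hr2⟩ := Submodule.mem_prod.1 hr
  rw [Submodule.mem_bot] at hr1
  obtain ⟨c, hc⟩ := Finsupp.mem_span_range_iff_exists_finsupp.1 hp
  have h1 : p.1 = 0 := by
    have := congrArg Prod.fst hpr
    rw [Prod.fst_add, hr1, add_zero] at this
    exact this
  have h2 : y = p.2 + r.2 := by
    have := congrArg Prod.snd hpr
    rw [Prod.snd_add] at this
    exact this.symm
  have e1 : ∑ x ∈ c.support, c x • Sf D (x : ℚ) = 0 := by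
    rw [← h1, ← hc, Finsupp.sum, Prod.fst_sum]
    rfl
  have e2 : ∑ x ∈ c.support, (c x : ℝ) * lg (x : ℚ) = p.2 := by
    rw [← hc, Finsupp.sum, Prod.snd_sum]
    refine sum_congr rfl fun x _ => ?_
    show _ = c x • lg (x : ℚ)
    rw [Rat.smul_def]
  have h3 := log_of_sf hD c.support c (fun x => (x : ℚ)) (fun x _ => x.2) e1
  rw [e2] at h3
  rw [h2]
  exact LogAlg.add_mem h3 hr2

theorem LogF_mono {F F' : IntermediateField ℚ ℂ} (h : F ≤ F') : LogF F ≤ LogF F' := by
  intro y hy
  rw [mem_LogF] at hy ⊢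
  let _ : Algebra F F' := (IntermediateField.inclusion h).toAlgebra
  have : IsScalarTower F F' ℂ := IsScalarTower.of_algebraMap_eq' rfl
  exact hy.extendScalars (FaithfulSMul.algebraMap_injective F F')

/-- **gamma monomials over a field generated by `q` numbers** -/
theorem dim_le (hT : TrAll) {D : ℕ} (hD : 2 < D) {q : ℕ} (θ : Fin q → ℂ) {n : ℕ}
    {χ : Fin n → ((ZMod D)ˣ → ℚ)} {X : Fin n → ℝ} (hχ : ∀ i, (χ i, X i) ∈ GM D)
    (hodd : ∀ i, χ i ∈ oddW D)
    (hF : ∀ i, X i ∈ LogF (IntermediateField.adjoin ℚ (Set.range θ)))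
    (hlin : LinearIndependent ℚ χ) : n ≤ q := by
  classical
  have hD0 : 0 < D := by omega
  have : NeZero D := ⟨hD0.ne'⟩
  let κ := Fin n ⊕ {j // j ∈ Ioo 0 D}
  let w : κ → ((ZMod D)ˣ → ℚ) := Sum.elim χ fun j => Sf D (((j : ℕ) : ℚ) / D)
  let Y : κ → ℝ := Sum.elim X fun j => lg (((j : ℕ) : ℚ) / D)
  have hpt : ∀ j : {j // j ∈ Ioo 0 D}, IsPt D (((j : ℕ) : ℚ) / D) := fun j =>
    pt_div (mem_Ioo.1 j.2).1 (mem_Ioo.1 j.2).2
  have hGM : ∀ b, (w b, Y b) ∈ GM D := by
    rintro (i | j)
    · exact hχ i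
    · exact gm_sf (hpt j)
  have hs : LinearIndepOn ℚ w (Set.range (Sum.inl : Fin n → κ)) :=
    (linearIndepOn_range_iff Sum.inl_injective w).2 hlin
  obtain ⟨b, -, hsb, hspan, hli⟩ := exists_linearIndepOn_extension hs (Set.subset_univ _)
  -- the number of elements of `b`
  set B : Finset κ := b.toFinset with hB
  have hBl : B.toLeft = univ := by
    ext i
    simp only [mem_toLeft, mem_univ, iff_true, hB, Set.mem_toFinset]
    exact hsb ⟨i, rfl⟩
  have hBc : n + B.toRight.card = B.card := by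
    rw [← card_toLeft_add_card_toRight, hBl, card_univ, Fintype.card_fin]
  have hcard : 2 * B.card ≤ D.totient := by
    have h1 := finrank_span_eq_card hli
    have h2 : Set.range (fun x : b => w x) = w '' b := by
      rw [Set.image_eq_range]
    have h3 : Submodule.span ℚ (w '' b) ≤ oddW D := by
      rw [Submodule.span_le]
      rintro _ ⟨x, -, rfl⟩
      rcases x with i | j
      · exact hodd i
      · exact Sf_odd (hpt j)
    rw [h2] at h1
    have h4 := Submodule.finrank_mono h3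
    have h5 := finrank_odd hD
    rw [h1] at h4
    have h6 : Fintype.card b = B.card := by rw [hB, Set.toFinset_card]
    omega
  -- the field
  set e := B.toRight.equivFin with he
  let θ' : Fin (q + B.toRight.card) → ℂ := Fin.append θ fun i =>
    ((Real.exp (lg ((((e.symm i : {j // j ∈ Ioo 0 D}) : ℕ) : ℚ) / D)) : ℝ) : ℂ)
  set F' := IntermediateField.adjoin ℚ (Set.range θ') with hF'
  have hsub : IntermediateField.adjoin ℚ (Set.range θ) ≤ F' := by
    apply IntermediateField.adjoin.mono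
    rintro _ ⟨i, rfl⟩
    exact ⟨Fin.castAdd _ i, Fin.append_left _ _ _⟩
  have hYb : ∀ x ∈ b, Y x ∈ LogF F' := by
    rintro (i | j) hx
    · exact LogF_mono hsub (hF i)
    · have hj : j ∈ B.toRight := by
        rw [mem_toRight, hB, Set.mem_toFinset]
        exact hx
      rw [mem_LogF]
      refine isAlgebraic_algebraMap (⟨_, IntermediateField.subset_adjoin ℚ _
        ⟨Fin.natAdd q (e ⟨j, hj⟩), ?_⟩⟩ : F')
      simp only [θ', Fin.append_right, Equiv.symm_apply_apply]
      rfl
  have key := hT D hD _ θ' (by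
    intro j hj
    have hj' := mem_Ioo.1 hj
    have hptj := pt_div hj'.1 hj'.2
    have hmem : Sf D ((j : ℚ) / D) ∈ Submodule.span ℚ (w '' b) :=
      hspan ⟨Sum.inr ⟨j, hj⟩, Set.mem_univ _, rfl⟩
    rw [Finsupp.mem_span_image_iff_linearCombination] at hmem
    obtain ⟨l, hl, hlx⟩ := hmem
    rw [Finsupp.linearCombination_apply, Finsupp.sum] at hlx
    have h1 : (∑ x ∈ l.support, l x • w x, ∑ x ∈ l.support, l x • Y x) ∈ GM D := by
      have h2 : (∑ x ∈ l.support, l x • w x, ∑ x ∈ l.support, l x • Y x) =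
          ∑ x ∈ l.support, l x • (w x, Y x) := by
        ext1
        · rw [Prod.fst_sum]
          rfl
        · rw [Prod.snd_sum]
          rfl
      rw [h2]
      exact Submodule.sum_mem _ fun x _ => Submodule.smul_mem _ _ (hGM x)
    have h3 := (GM D).sub_mem (gm_sf hptj) h1
    rw [hlx, Prod.mk_sub_mk, sub_self] at h3
    have h4 := logAlg_le F' (gm_zero hD0 h3)
    have h5 : ∑ x ∈ l.support, l x • Y x ∈ LogF F' :=
      Submodule.sum_mem _ fun x hx => Submodule.smul_mem _ _ (hYb x ((Finsupp.mem_supported ℚ l).1 hl hx))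
    have h6 := (LogF F').add_mem h4 h5
    rw [sub_add_cancel, mem_LogF, exp_lg hptj.1] at h6
    push_cast at h6 ⊢
    exact h6)
  omega

end Pool.Agent.RCM
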