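import Mathlib

/-!
All levels, block COMB, part 6: the conductor of a function on the integers prime to `M`.
-/

set_option autoImplicit false

namespace Pool.Agent.RCM

/-- lifting of residues -/
theorem lift_coprime {d M m : ℕ} (hd : 0 < d) (hM : 0 < M) (h : m.Coprime d) :
    ∃ m' : ℕ, m'.Coprime M ∧ m' ≡ m [MOD d] := by
  have : NeZero (d * M) := ⟨(Nat.mul_pos hd hM).ne'⟩
  have hdvd : d ∣ d * M := Nat.dvd_mul_right d M
  obtain ⟨u, hu⟩ := ZMod.unitsMap_surjective hdvd (ZMod.unitOfCoprime m h)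
  refine ⟨(u : ZMod (d * M)).val, ?_, ?_⟩
  · exact Nat.Coprime.coprime_mul_left_right (ZMod.val_coe_unit_coprime u)
  · rw [← ZMod.natCast_eq_natCast_iff]
    have h1 : ((ZMod.unitsMap hdvd u : (ZMod d)ˣ) : ZMod d) = (m : ZMod d) := by
      rw [hu, ZMod.coe_unitOfCoprime]
    rw [ZMod.unitsMap_val, ZMod.cast_eq_val] at h1
    exact h1

/-- two congruences -/
theorem crt {a b m m' : ℕ} (h : m ≡ m' [MOD Nat.gcd a b]) :
    ∃ x : ℕ, x ≡ m [MOD a] ∧ x ≡ m' [MOD b] :=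
  ⟨_, (Nat.chineseRemainder' h).2⟩

/-- **the conductor** -/
theorem conductor {f : ℕ → ℚ} {M : ℕ} (hM : 0 < M) (hf : ∀ m m', m ≡ m' [MOD M] → f m = f m') :
    ∃ D₀ : ℕ, 0 < D₀ ∧ D₀ ∣ M ∧
      (∀ m m' : ℕ, m.Coprime M → m'.Coprime M → m ≡ m' [MOD D₀] → f m = f m') ∧
      ∀ D : ℕ, 0 < D → (∀ m m' : ℕ, m.Coprime (M * D) → m'.Coprime (M * D) → m ≡ m' [MOD D] →
        f m = f m') → D₀ ∣ D := by
  classical
  set P : ℕ → Prop := fun D => 0 < D ∧ D ∣ M ∧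
    ∀ m m' : ℕ, m.Coprime M → m'.Coprime M → m ≡ m' [MOD D] → f m = f m' with hP
  have hPM : P M := ⟨hM, dvd_refl M, fun m m' _ _ h => hf m m' h⟩
  have hgcd : ∀ D1 D2, P D1 → P D2 → P (Nat.gcd D1 D2) := by
    rintro D1 D2 ⟨h1, h1M, h1f⟩ ⟨h2, h2M, h2f⟩
    refine ⟨Nat.gcd_pos_of_pos_left _ h1, (Nat.gcd_dvd_left _ _).trans h1M, ?_⟩
    intro m m' hm hm' hmm
    obtain ⟨x, hx1, hx2⟩ := crt hmm
    have c1 : x.Coprime D1 := by
      have := hm.coprime_dvd_right h1M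
      unfold Nat.Coprime at this ⊢
      rw [hx1.gcd_eq]
      exact this
    have c2 : x.Coprime D2 := by
      have := hm'.coprime_dvd_right h2M
      unfold Nat.Coprime at this ⊢
      rw [hx2.gcd_eq]
      exact this
    obtain ⟨y, hyM, hyx⟩ := lift_coprime (d := D1 * D2) (Nat.mul_pos h1 h2) hM
      (Nat.Coprime.mul_right c1 c2)
    have e1 : m ≡ y [MOD D1] := hx1.symm.trans (hyx.of_mul_right D2).symm
    have e2 : y ≡ m' [MOD D2] := (hyx.of_mul_left D1).trans hx2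
    rw [h1f m y hm hyM e1, h2f y m' hyM hm' e2]
  have hex : ∃ D, P D := ⟨M, hPM⟩
  have hmin := Nat.find_spec hex
  refine ⟨Nat.find hex, hmin.1, hmin.2.1, hmin.2.2, ?_⟩
  intro D hD hQ
  have hPD : P (Nat.gcd D M) := by
    refine ⟨Nat.gcd_pos_of_pos_left _ hD, Nat.gcd_dvd_right _ _, ?_⟩
    intro m m' hm hm' hmm
    obtain ⟨m2, h2D, h2m⟩ := lift_coprime (M := M * D) hM (Nat.mul_pos hM hD) hm'
    have h3 : m2 ≡ m [MOD Nat.gcd D M] :=
      (h2m.of_dvd (Nat.gcd_dvd_right _ _)).trans hmm.symm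
    obtain ⟨x, hx1, hx2⟩ := crt h3
    have c1 : x.Coprime D := by
      have := Nat.Coprime.coprime_mul_left_right h2D
      unfold Nat.Coprime at this ⊢
      rw [hx1.gcd_eq]
      exact this
    have c2 : x.Coprime M := by
      unfold Nat.Coprime at hm ⊢
      rw [hx2.gcd_eq]
      exact hm
    rw [← hf x m hx2, hQ x m2 (Nat.Coprime.mul_right c2 c1) h2D hx1]
    exact hf m2 m' h2m
  have h1 := hgcd _ _ hmin hPD
  have h2 : Nat.find hex ≤ Nat.gcd (Nat.find hex) (Nat.gcd D M) := Nat.find_min' hex h1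
  have h3 : Nat.gcd (Nat.find hex) (Nat.gcd D M) ∣ Nat.find hex := Nat.gcd_dvd_left _ _
  have h4 := Nat.le_of_dvd hmin.1 h3
  have h5 : Nat.gcd (Nat.find hex) (Nat.gcd D M) = Nat.find hex := le_antisymm h4 h2
  rw [← h5]
  exact (Nat.gcd_dvd_right _ _).trans (Nat.gcd_dvd_left _ _)

end Pool.Agent.RCM
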