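import Pool.Agent.RCM.Adj
import Pool.Agent.RCM.Cond
import Pool.Agent.Helper99.Rohr.Main

/-!
All levels, block COMB, part 9: gamma values at arbitrary rationals are algebraically independent
(after division by `√π`) if and only if their class functions are linearly independent.
-/

set_option autoImplicit false

namespace Pool.Agent.RCM

open Finset Pool.Agent.Helper99.Rohr Pool.Agent.ROH Pool.Agent.ROH8 Pool.Agent.RHK

/-- the transcendence degree of the gamma values of level `D` is at least `φ(D)/2` -/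
def TrAll : Prop := ∀ D : ℕ, 2 < D → ∀ (k : ℕ) (θ : Fin k → ℂ),
  (∀ j ∈ Ioo 0 D, IsAlgebraic (IntermediateField.adjoin ℚ (Set.range θ))
      ((Real.Gamma ((j : ℕ) / D) / Real.sqrt Real.pi : ℝ) : ℂ)) → D.totient ≤ 2 * k

theorem exp_lg {x : ℚ} (h0 : 0 < x) :
    Real.exp (lg x) = Real.Gamma x / Real.sqrt Real.pi := by
  have h0' : (0 : ℝ) < x := by exact_mod_cast h0
  have hG := Real.Gamma_pos_of_pos h0'
  have hs : 0 < Real.sqrt Real.pi := Real.sqrt_pos.2 Real.pi_pos
  have e2 : lg x = Real.log (Real.Gamma x / Real.sqrt Real.pi) := by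
    unfold lg
    rw [Real.log_div hG.ne' hs.ne', Real.log_sqrt Real.pi_pos.le]
  rw [e2, Real.exp_log (div_pos hG hs)]

/-- linear relations of the class functions are multiplicative relations of the gamma values -/
theorem log_of_sf {D : ℕ} (hD : 0 < D) {κ : Type*} (s : Finset κ) (c : κ → ℚ) (p : κ → ℚ)
    (hp : ∀ b ∈ s, IsPt D (p b)) (h : ∑ b ∈ s, c b • Sf D (p b) = 0) :
    ∑ b ∈ s, (c b : ℝ) * lg (p b) ∈ LogAlg := by
  have : NeZero D := ⟨hD.ne'⟩
  refine ko hD s c p hp fun m hm => ?_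
  obtain ⟨t, ht⟩ := unit_of hm
  have h2 := congrFun h t
  rw [Finset.sum_apply, Pi.zero_apply] at h2
  rw [← h2]
  refine sum_congr rfl fun b hb => ?_
  rw [Pi.smul_apply, smul_eq_mul, Sf_apply ht (hp b hb).2.2]

theorem logAlg_le (F : IntermediateField ℚ ℂ) {y : ℝ} (h : y ∈ LogAlg) : y ∈ LogF F := by
  have h1 : IsAlgebraic ℚ (Real.exp y) := h
  rw [mem_LogF]
  exact (Pool.Agent.GP.DedM.alg_complex h1).tower_top _

theorem lg_of_span {D : ℕ} (hD : 0 < D) {F : IntermediateField ℚ ℂ} {κ : Type*} (p : κ → ℚ)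
    (hp : ∀ b, IsPt D (p b)) (B : Set κ) (hB : ∀ b ∈ B, lg (p b) ∈ LogF F) {x : ℚ} (hx : IsPt D x)
    (hxs : Sf D x ∈ Submodule.span ℚ ((fun b => Sf D (p b)) '' B)) : lg x ∈ LogF F := by
  classical
  rw [Finsupp.mem_span_image_iff_linearCombination] at hxs
  obtain ⟨l, hl, hlx⟩ := hxs
  rw [Finsupp.linearCombination_apply, Finsupp.sum] at hlx
  have h1 := log_of_sf hD (insertNone l.support) (fun o => o.elim (1 : ℚ) fun b => -l b)
    (fun o => o.elim x p) (by
      intro o _
      cases o with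
      | none => exact hx
      | some b => exact hp b) (by
      rw [sum_insertNone]
      simp only [Option.elim_none, Option.elim_some, one_smul, neg_smul]
      rw [sum_neg_distrib, hlx, add_neg_cancel])
  rw [sum_insertNone] at h1
  simp only [Option.elim_none, Option.elim_some, Rat.cast_one, one_mul, Rat.cast_neg, neg_mul] at h1
  rw [sum_neg_distrib] at h1
  have h2 := logAlg_le F h1
  have h3 : ∑ b ∈ l.support, ((l b : ℚ) : ℝ) * lg (p b) ∈ LogF F := by
    refine Submodule.sum_mem _ fun b hb => ?_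
    have h4 := (LogF F).smul_mem (l b) (hB b ((Finsupp.mem_supported ℚ l).1 hl hb))
    rwa [Rat.smul_def] at h4
  have h5 := (LogF F).add_mem h2 h3
  rwa [neg_add_cancel_right] at h5

theorem linInd_of_algInd {D : ℕ} (hD : 0 < D) {k : ℕ} {y : Fin k → ℚ} (hy : ∀ i, IsPt D (y i))
    (h : AlgebraicIndependent ℚ (fun i => Real.Gamma (y i) / Real.sqrt Real.pi)) :
    LinearIndependent ℚ (fun i => Sf D (y i)) := by
  rw [Fintype.linearIndependent_iff]
  intro c hc
  have hpos : ∀ i, 0 < Real.Gamma (y i) / Real.sqrt Real.pi := by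
    intro i
    rw [← exp_lg (hy i).1]
    exact Real.exp_pos _
  refine mult_ind_fam hpos h (c := c) ?_
  have h1 := log_of_sf hD univ c y (fun i _ => hy i) hc
  have h2 : ∑ i, (c i : ℝ) * Real.log (Real.Gamma (y i) / Real.sqrt Real.pi) =
      ∑ i, (c i : ℝ) * lg (y i) := by
    refine sum_congr rfl fun i _ => ?_
    rw [← exp_lg (hy i).1, Real.log_exp]
  rw [h2]
  exact h1

theorem algInd_of_linInd (hT : TrAll) {D : ℕ} (hD : 2 < D) {k : ℕ} {y : Fin k → ℚ}
    (hy : ∀ i, IsPt D (y i)) (h : LinearIndependent ℚ (fun i => Sf D (y i))) :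
    AlgebraicIndependent ℚ (fun i => Real.Gamma (y i) / Real.sqrt Real.pi) := by
  classical
  have hD0 : 0 < D := by omega
  have : NeZero D := ⟨hD0.ne'⟩
  let κ := Fin k ⊕ {j // j ∈ Ioo 0 D}
  let p : κ → ℚ := Sum.elim y fun j => ((j : ℕ) : ℚ) / D
  have hp : ∀ b, IsPt D (p b) := by
    rintro (i | j)
    · exact hy i
    · exact pt_div (mem_Ioo.1 j.2).1 (mem_Ioo.1 j.2).2
  let w : κ → ((ZMod D)ˣ → ℚ) := fun b => Sf D (p b)
  have hs : LinearIndepOn ℚ w (Set.range (Sum.inl : Fin k → κ)) :=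
    (linearIndepOn_range_iff Sum.inl_injective w).2 h
  obtain ⟨b, -, hsb, hspan, hli⟩ := exists_linearIndepOn_extension hs (Set.subset_univ _)
  -- the span
  have hwodd : Submodule.span ℚ (w '' b) = oddW D := by
    apply le_antisymm
    · rw [Submodule.span_le]
      rintro _ ⟨x, -, rfl⟩
      exact Sf_odd (hp x)
    · rw [← saw_span hD, Submodule.span_le]
      rintro _ ⟨j, h0, h1, rfl⟩
      exact hspan ⟨Sum.inr ⟨j, mem_Ioo.2 ⟨h0, h1⟩⟩, Set.mem_univ _, rfl⟩
  have hcard : 2 * Fintype.card b ≤ D.totient := by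
    have h1 := finrank_span_eq_card hli
    have h2 : Set.range (fun x : b => w x) = w '' b := by
      rw [Set.image_eq_range]
    rw [h2, hwodd] at h1
    have h3 := finrank_odd hD
    rw [h1] at h3
    omega
  obtain ⟨J, hJ, hJc⟩ := extract (ι := b) (fun x => Real.exp (lg (p x))) ((D.totient : ℝ) / 2) (by
    intro n θ hx
    have h1 := hT D hD n θ (by
      intro j hj
      have hj' := mem_Ioo.1 hj
      have hpt := pt_div hj'.1 hj'.2
      have h2 : lg ((j : ℚ) / D) ∈ LogF (IntermediateField.adjoin ℚ (Set.range θ)) := by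
        refine lg_of_span hD0 p hp b (fun x hxb => hx ⟨x, hxb⟩) hpt ?_
        exact hspan ⟨Sum.inr ⟨j, hj⟩, Set.mem_univ _, rfl⟩
      rw [mem_LogF, exp_lg hpt.1] at h2
      push_cast at h2 ⊢
      exact h2)
    rw [div_le_iff₀ two_pos]
    have h2 : (D.totient : ℝ) ≤ ((2 * n : ℕ) : ℝ) := by exact_mod_cast h1
    push_cast at h2
    linarith)
  have hJu : J = univ := by
    apply eq_univ_of_card
    apply le_antisymm (card_le_univ J)
    rw [div_le_iff₀ two_pos] at hJc
    have h2 : (D.totient : ℝ) ≤ ((2 * J.card : ℕ) : ℝ) := by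
      push_cast
      linarith
    have h3 : D.totient ≤ 2 * J.card := by exact_mod_cast h2
    omega
  have hmem : ∀ i : Fin k, (Sum.inl i : κ) ∈ b := fun i => hsb ⟨i, rfl⟩
  have h4 := hJ.comp (fun i : Fin k => (⟨⟨Sum.inl i, hmem i⟩, by rw [hJu]; exact mem_univ _⟩ : J)) (by
    intro i j hij
    have h5 := congrArg (fun x : J => ((x : b) : κ)) hij
    exact Sum.inl_injective h5)
  have h6 : (fun i => Real.Gamma (y i) / Real.sqrt Real.pi) =
      (fun x : J => Real.exp (lg (p (x : b)))) ∘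
        (fun i : Fin k => (⟨⟨Sum.inl i, hmem i⟩, by rw [hJu]; exact mem_univ _⟩ : J)) := by
    funext i
    exact (exp_lg (hy i).1).symm
  rw [h6]
  exact h4

/-! ## arbitrary rationals -/

theorem gamma_shift {y : ℚ} (hy : ∀ z : ℤ, y ≠ z) (n : ℤ) :
    ∃ q : ℚ, q ≠ 0 ∧ Real.Gamma ((y : ℝ) + n) = q * Real.Gamma y := by
  have hne : ∀ n : ℤ, (y + n : ℚ) ≠ 0 := by
    intro n h0
    exact hy (-n) (by push_cast; linarith)
  induction n using Int.induction_on with
  | zero => exact ⟨1, one_ne_zero, by simp⟩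
  | succ n ih =>
    obtain ⟨q, hq, h⟩ := ih
    refine ⟨(y + n) * q, mul_ne_zero (by exact_mod_cast hne n) hq, ?_⟩
    have h1 : ((y : ℝ) + ((n : ℕ) : ℤ)) ≠ 0 := by exact_mod_cast hne n
    have h2 := Real.Gamma_add_one h1
    have e : (y : ℝ) + (((n : ℕ) : ℤ) + 1 : ℤ) = (y : ℝ) + ((n : ℕ) : ℤ) + 1 := by
      push_cast
      ring
    rw [e, h2, h]
    push_cast
    ring
  | pred n ih =>
    obtain ⟨q, hq, h⟩ := ih
    have h0 := hne (-(n : ℤ) - 1)
    refine ⟨q / (y + ((-(n : ℤ) - 1 : ℤ) : ℚ)), div_ne_zero hq h0, ?_⟩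
    have h1 : ((y : ℝ) + ((-(n : ℤ) - 1 : ℤ) : ℝ)) ≠ 0 := by exact_mod_cast h0
    have h2 := Real.Gamma_add_one h1
    have e : (y : ℝ) + ((-(n : ℤ) - 1 : ℤ) : ℝ) + 1 = (y : ℝ) + ((-(n : ℤ) : ℤ) : ℝ) := by
      push_cast
      ring
    rw [e, h] at h2
    have h3 : Real.Gamma ((y : ℝ) + ((-(n : ℤ) - 1 : ℤ) : ℝ)) =
        q * Real.Gamma y / ((y : ℝ) + ((-(n : ℤ) - 1 : ℤ) : ℝ)) := by
      rw [h2]
      field_simp
    rw [h3]
    push_cast
    ring

theorem gamma_fract {x : ℚ} (hx : ∀ z : ℤ, x ≠ z) :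
    ∃ q : ℚ, q ≠ 0 ∧ Real.Gamma x = q * Real.Gamma ((Int.fract x : ℚ) : ℝ) := by
  have hy : ∀ z : ℤ, Int.fract x ≠ z := by
    intro z h
    apply hx (⌊x⌋ + z)
    push_cast
    rw [← h, Int.floor_add_fract]
  obtain ⟨q, hq, h⟩ := gamma_shift hy ⌊x⌋
  refine ⟨q, hq, ?_⟩
  rw [← h]
  congr 1
  have : (x : ℝ) = ((Int.fract x + ⌊x⌋ : ℚ) : ℝ) := by rw [Int.fract_add_floor]
  rw [this]
  push_cast
  rfl

/-- rational factors do not matter -/
theorem algInd_smul {ι : Type*} {X : ι → ℝ} {q : ι → ℚ} (hq : ∀ i, q i ≠ 0)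
    (h : AlgebraicIndependent ℚ X) : AlgebraicIndependent ℚ (fun i => (q i : ℝ) * X i) := by
  let σ : MvPolynomial ι ℚ →ₐ[ℚ] MvPolynomial ι ℚ :=
    MvPolynomial.aeval fun i => MvPolynomial.C (q i) * MvPolynomial.X i
  let τ : MvPolynomial ι ℚ →ₐ[ℚ] MvPolynomial ι ℚ :=
    MvPolynomial.aeval fun i => MvPolynomial.C (q i)⁻¹ * MvPolynomial.X i
  have hτσ : τ.comp σ = AlgHom.id ℚ _ := by
    apply MvPolynomial.algHom_ext
    intro i
    simp only [σ, τ, AlgHom.comp_apply, MvPolynomial.aeval_X, map_mul, AlgHom.id_apply]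
    rw [MvPolynomial.algHom_C, MvPolynomial.algebraMap_eq, ← mul_assoc, ← MvPolynomial.C_mul,
      mul_inv_cancel₀ (hq i), MvPolynomial.C_1, one_mul]
  have hinj : Function.Injective σ := by
    apply Function.LeftInverse.injective (g := τ)
    intro P
    exact congrArg (fun f : MvPolynomial ι ℚ →ₐ[ℚ] MvPolynomial ι ℚ => f P) hτσ
  have hcomp : (MvPolynomial.aeval fun i => (q i : ℝ) * X i : MvPolynomial ι ℚ →ₐ[ℚ] ℝ) =
      (MvPolynomial.aeval X).comp σ := by
    apply MvPolynomial.algHom_ext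
    intro i
    simp only [σ, AlgHom.comp_apply, MvPolynomial.aeval_X, map_mul]
    rw [MvPolynomial.algHom_C]
    rfl
  have h1 : Function.Injective (MvPolynomial.aeval X : MvPolynomial ι ℚ →ₐ[ℚ] ℝ) := h
  show Function.Injective (MvPolynomial.aeval fun i => (q i : ℝ) * X i : MvPolynomial ι ℚ →ₐ[ℚ] ℝ)
  rw [hcomp]
  exact h1.comp hinj

/-- **the Lang-Rohrlich conjecture modulo `π`** -/
theorem lang_mod_pi (hT : TrAll) {k : ℕ} (x : Fin k → ℚ) {M : ℕ} (hM : 0 < M)
    (hx : ∀ i, ∃ z : ℤ, (M : ℚ) * x i = z) (hni : ∀ (i : Fin k) (z : ℤ), x i ≠ z) :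
    AlgebraicIndependent ℚ (fun i => Real.Gamma (x i) / Real.sqrt Real.pi) ↔
      LinearIndependent ℚ (fun (i : Fin k) (m : {m : ℕ // m.Coprime M}) =>
        Int.fract (((m : ℕ) : ℚ) * x i) - 1 / 2) := by
  classical
  set D := 3 * M with hDdef
  have hD : 2 < D := by omega
  have hD0 : 0 < D := by omega
  have : NeZero D := ⟨hD0.ne'⟩
  set y : Fin k → ℚ := fun i => Int.fract (x i) with hydef
  have hDx : ∀ i, ∃ z : ℤ, (D : ℚ) * x i = z := by
    intro i
    obtain ⟨z, hz⟩ := hx i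
    refine ⟨3 * z, ?_⟩
    rw [hDdef]
    push_cast
    rw [mul_assoc, hz]
  have hf0 : ∀ i, Int.fract (x i) ≠ 0 := by
    intro i h0
    apply hni i ⌊x i⌋
    have h1 := Int.floor_add_fract (x i)
    rw [h0, add_zero] at h1
    exact h1.symm
  have hy : ∀ i, IsPt D (y i) := fun i => isPt_fract (hDx i) (hf0 i)
  -- the linear independence
  have hlin : LinearIndependent ℚ (fun (i : Fin k) (m : {m : ℕ // m.Coprime M}) =>
      Int.fract (((m : ℕ) : ℚ) * x i) - 1 / 2) ↔ LinearIndependent ℚ (fun i => Sf D (y i)) := by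
    rw [Fintype.linearIndependent_iff, Fintype.linearIndependent_iff]
    have hiff : ∀ c : Fin k → ℚ, (∑ i, c i • (fun (m : {m : ℕ // m.Coprime M}) =>
        Int.fract (((m : ℕ) : ℚ) * x i) - 1 / 2) = 0) ↔ ∑ i, c i • Sf D (y i) = 0 := by
      intro c
      have hsaw : ∀ (m : ℕ) (i : Fin k), saw m (y i) = Int.fract ((m : ℚ) * x i) - 1 / 2 := by
        intro m i
        unfold saw
        rw [hydef]
        simp only
        rw [fract_mul_fract]
      constructor
      · intro h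
        funext t
        have htc : ((t : ZMod D).val).Coprime M :=
          (ZMod.val_coe_unit_coprime t).coprime_dvd_right (Dvd.intro_left _ rfl)
        have h1 := congrFun h ⟨(t : ZMod D).val, htc⟩
        rw [Finset.sum_apply, Pi.zero_apply] at h1
        rw [Finset.sum_apply, Pi.zero_apply, ← h1]
        refine sum_congr rfl fun i _ => ?_
        rw [Pi.smul_apply, Pi.smul_apply]
        congr 1
        show saw _ _ = _
        exact hsaw _ _
      · intro h
        funext m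
        obtain ⟨m', hm', hmm⟩ := lift_coprime hM hD0 m.2
        obtain ⟨t, ht⟩ := unit_of hm'
        have h1 := congrFun h t
        rw [Finset.sum_apply, Pi.zero_apply] at h1
        rw [Finset.sum_apply, Pi.zero_apply, ← h1]
        refine sum_congr rfl fun i _ => ?_
        rw [Pi.smul_apply, Pi.smul_apply]
        congr 1
        rw [Sf_apply ht (hy i).2.2, hsaw]
        congr 1
        exact (ROH.fract_congr hmm (hx i)).symm
    constructor
    · intro h c hc
      exact h c ((hiff c).2 hc)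
    · intro h c hc
      exact h c ((hiff c).1 hc)
  -- the algebraic independence
  choose q hq hqg using fun i => gamma_fract (hni i)
  have halg : AlgebraicIndependent ℚ (fun i => Real.Gamma (x i) / Real.sqrt Real.pi) ↔
      AlgebraicIndependent ℚ (fun i => Real.Gamma (y i) / Real.sqrt Real.pi) := by
    constructor
    · intro h
      have h1 := algInd_smul (q := fun i => (q i)⁻¹) (fun i => inv_ne_zero (hq i)) h
      have e : (fun i => Real.Gamma (y i) / Real.sqrt Real.pi) =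
          fun i => (((q i)⁻¹ : ℚ) : ℝ) * (Real.Gamma (x i) / Real.sqrt Real.pi) := by
        funext i
        have hq' : (q i : ℝ) ≠ 0 := by exact_mod_cast hq i
        have e2 : ((Int.fract (x i) : ℚ) : ℝ) = ((y i : ℚ) : ℝ) := rfl
        rw [hqg i, e2, Rat.cast_inv]
        field_simp
      rw [e]
      exact h1
    · intro h
      have h1 := algInd_smul (q := q) hq h
      have e : (fun i => Real.Gamma (x i) / Real.sqrt Real.pi) =
          fun i => (q i : ℝ) * (Real.Gamma (y i) / Real.sqrt Real.pi) := by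
        funext i
        rw [hqg i, mul_div_assoc]
      rw [e]
      exact h1
  rw [hlin, halg]
  exact ⟨linInd_of_algInd hD0 hy, algInd_of_linInd hT hD hy⟩

end Pool.Agent.RCM
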