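import Pool.Agent.RCM.Adj
import Pool.Agent.RCM.LinI
import Pool.Agent.RHK.ArFin
import Pool.Agent.RHT.ThF
import Pool.Agent.ALD.ER4
import Pool.Agent.ALD.UForm

/-!
All levels: the unconditional theorems.
-/

set_option autoImplicit false

namespace Pool.Agent.RCM

open Pool.Agent.RHK

/-- the transcendence degree of the gamma values of level `D` is at least `φ(D)/2` -/
theorem trAll : TrAll := fun _ hD k θ hx =>
  trdeg_all RHK.arithForm ALD.thForm ALD.uForm ALD.r4Form RHT.thetaForm hD k θ hx

/-- `φ(D)/2` algebraically independent gamma values for every level -/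
theorem indAll : ∀ D : ℕ, 2 < D → ∃ J : Finset ℕ, Ind D J ∧ D.totient ≤ 2 * J.card :=
  fun _ hD => ind_all RHK.arithForm ALD.thForm ALD.uForm ALD.r4Form RHT.thetaForm hD

end Pool.Agent.RCM
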