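import Pool.Agent.RCM.Comb

/-!
All levels, block COMB, part 5: `φ(D)/2` algebraically independent gamma values for every level.
-/

set_option autoImplicit false

namespace Pool.Agent.RCM

open Complex ComplexConjugate Finset Pool.Agent.Helper99.Rohr Pool.Agent.ROH Pool.Agent.ROH8
  Pool.Agent.RHK

noncomputable section

/-- the real numbers whose exponential is algebraic over `F` -/
def LogF (F : IntermediateField ℚ ℂ) : Submodule ℚ ℝ where
  carrier := {y | IsAlgebraic F ((Real.exp y : ℝ) : ℂ)}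
  zero_mem' := by
    change IsAlgebraic F ((Real.exp 0 : ℝ) : ℂ)
    rw [Real.exp_zero, ofReal_one]
    exact isAlgebraic_one
  add_mem' := by
    intro x y hx hy
    change IsAlgebraic F ((Real.exp (x + y) : ℝ) : ℂ)
    rw [Real.exp_add, ofReal_mul]
    exact IsAlgebraic.mul hx hy
  smul_mem' := by
    intro q x hx
    change IsAlgebraic F ((Real.exp (q • x) : ℝ) : ℂ)
    apply IsAlgebraic.of_pow q.pos
    have h1 : (((Real.exp (q • x) : ℝ) : ℂ)) ^ q.den = ((Real.exp x : ℝ) : ℂ) ^ q.num := by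
      rw [← ofReal_pow, ← ofReal_zpow]
      congr 1
      rw [← Real.exp_nat_mul, ← Real.rpow_intCast, ← Real.exp_mul, mul_comm x]
      congr 1
      have h2 : (q.den : ℝ) * (q : ℝ) = q.num := by
        have h3 : (q.den : ℚ) * q = q.num := by
          rw [mul_comm]
          exact Rat.mul_den_eq_num q
        exact_mod_cast h3
      rw [Rat.smul_def, ← mul_assoc, h2]
    rw [h1]
    have hx' : IsAlgebraic F ((Real.exp x : ℝ) : ℂ) := hx
    obtain ⟨n, hn⟩ := Int.eq_nat_or_neg q.num
    rcases hn with hn | hn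
    · rw [hn, zpow_natCast]
      exact hx'.pow n
    · rw [hn, zpow_neg, zpow_natCast]
      exact (hx'.pow n).inv

theorem mem_LogF {F : IntermediateField ℚ ℂ} {y : ℝ} :
    y ∈ LogF F ↔ IsAlgebraic F ((Real.exp y : ℝ) : ℂ) := Iff.rfl

/-- gamma monomials are algebraic over the field of gamma values -/
theorem alg_of_WG {D : ℕ} {F : IntermediateField ℚ ℂ}
    (hx : ∀ j ∈ Ioo 0 D, IsAlgebraic F ((Real.Gamma ((j : ℕ) / D) / Real.sqrt Real.pi : ℝ) : ℂ))
    {x : ℝ} (h0 : 0 < x) (h : Real.log x ∈ WG D) : IsAlgebraic F ((x : ℝ) : ℂ) := by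
  have hle : WG D ≤ LogF F := by
    unfold WG
    refine sup_le ?_ ?_
    · intro y hy
      have h1 : IsAlgebraic ℚ (Real.exp y) := hy
      rw [mem_LogF]
      exact (Pool.Agent.GP.DedM.alg_complex h1).tower_top _
    · rw [Submodule.span_le]
      rintro _ ⟨j, hj0, hj1, rfl⟩
      change _ ∈ LogF F
      rw [mem_LogF]
      have hj := hx j (mem_Ioo.2 ⟨hj0, hj1⟩)
      have hD : (0 : ℝ) < D := by
        have : 0 < D := by omega
        exact_mod_cast this
      have hjR : (0 : ℝ) < j := by exact_mod_cast hj0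
      have hG : 0 < Real.Gamma ((j : ℝ) / D) := Real.Gamma_pos_of_pos (by positivity)
      have hs : 0 < Real.sqrt Real.pi := Real.sqrt_pos.2 Real.pi_pos
      have e1 : Real.exp (lg ((j : ℚ) / D)) = Real.Gamma ((j : ℕ) / D) / Real.sqrt Real.pi := by
        have e2 : lg ((j : ℚ) / D) = Real.log (Real.Gamma ((j : ℝ) / D) / Real.sqrt Real.pi) := by
          unfold lg
          rw [Real.log_div hG.ne' hs.ne', Real.log_sqrt Real.pi_pos.le]
          push_cast
          rfl
        rw [e2, Real.exp_log (div_pos hG hs)]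
      rw [e1]
      exact hj
  have h1 := hle h
  rw [mem_LogF, Real.exp_log h0] at h1
  exact h1

/-- a CM type exists -/
theorem exists_CM {D : ℕ} (hD : 2 < D) : ∃ (g : ℕ) (t : Fin g → ℕ), 0 < g ∧ CM D g t := by
  classical
  have hD0 : 0 < D := by omega
  have nd : ∀ n : ℕ, 0 < n → n < D → ¬ D ∣ n := fun n h0 h1 h2 =>
    absurd (Nat.le_of_dvd h0 h2) (by omega)
  have h : Triple D 1 1 := ⟨nd 1 one_pos (by omega), nd 1 one_pos (by omega),
    nd 2 (by norm_num) hD, Or.inl (Nat.coprime_one_left _)⟩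
  obtain ⟨g, hgdef⟩ : ∃ g, g = (tyS D 1 1).card := ⟨_, rfl⟩
  have hcard : 2 * g = D.totient := by rw [hgdef]; exact tyS_card hD h
  have htot : 0 < D.totient := Nat.totient_pos.2 hD0
  have hg : 0 < g := by omega
  let e : tyS D 1 1 ≃ Fin g := (tyS D 1 1).equivFinOfCardEq hgdef.symm
  set t : Fin g → ℕ := fun i => (e.symm i : ℕ) with ht
  have htm : ∀ i, t i < D ∧ InType D 1 1 (t i) := by
    intro i
    have h1 : (e.symm i : ℕ) ∈ tyS D 1 1 := (e.symm i).2
    unfold tyS at h1
    rw [mem_filter, mem_range] at h1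
    exact h1
  have htinj : Function.Injective t := fun i j hij => e.symm.injective (Subtype.ext hij)
  refine ⟨g, t, hg, ⟨⟨hD0, fun i => (htm i).2.1, hcard, fun s hs => ?_⟩, hD, ?_, ?_⟩⟩
  · have hcop : (s % D).Coprime D := by
      have h1 : s % D ≡ s [MOD D] := Nat.mod_modEq _ _
      exact h1.gcd_eq.trans hs
    have hlt := Nat.mod_lt s hD0
    by_cases hin : InType D 1 1 (s % D)
    · have hm : s % D ∈ tyS D 1 1 := by
        rw [tyS, mem_filter, mem_range]
        exact ⟨hlt, hin⟩
      refine ⟨e ⟨s % D, hm⟩, Or.inl ?_⟩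
      have : t (e ⟨s % D, hm⟩) = s % D := by simp [ht]
      rw [this]
      exact (Nat.mod_modEq _ _).symm
    · have hcop' := coprime_sub hcop hlt.le
      have hs0 : 0 < s % D := by
        rcases Nat.eq_zero_or_pos (s % D) with h0 | h0
        · rw [h0, Nat.coprime_zero_left] at hcop
          omega
        · exact h0
      have hin' : InType D 1 1 (D - s % D) :=
        (inType_neg hD0 h hcop hcop' ⟨1, by omega⟩).2 hin
      have hm : D - s % D ∈ tyS D 1 1 := by
        rw [tyS, mem_filter, mem_range]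
        exact ⟨by omega, hin'⟩
      refine ⟨e ⟨D - s % D, hm⟩, Or.inr ?_⟩
      have h1 : t (e ⟨D - s % D, hm⟩) = D - s % D := by simp [ht]
      rw [h1]
      have h2 : s + (D - s % D) ≡ 0 [MOD D] := by
        have h3 : s + (D - s % D) ≡ s % D + (D - s % D) [MOD D] :=
          (Nat.mod_modEq s D).symm.add_right _
        have h4 : s % D + (D - s % D) = D := by omega
        rw [h4] at h3
        exact h3.trans (by simp [Nat.ModEq])
      exact (Nat.modEq_zero_iff_dvd).1 h2
  · intro i j hij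
    apply htinj
    exact Nat.ModEq.eq_of_lt_of_lt hij (htm i).1 (htm j).1
  · intro i j hij
    exact (inType_neg hD0 h (htm i).2.1 (htm j).2.1 hij).1 (htm j).2 (htm i).2

section

variable (hA : ArithForm) (hTH : THForm) (hU : UForm) (hR : R4Form) (hF : ThetaForm)

include hA hTH hU hR hF

/-- **the transcendence degree for every level** -/
theorem trdeg_all {D : ℕ} (hD : 2 < D) (k : ℕ) (θ : Fin k → ℂ)
    (hx : ∀ j ∈ Ioo 0 D, IsAlgebraic (IntermediateField.adjoin ℚ (Set.range θ))
      ((Real.Gamma ((j : ℕ) / D) / Real.sqrt Real.pi : ℝ) : ℂ)) : D.totient ≤ 2 * k := by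
  classical
  obtain ⟨g, t, hg, hcm⟩ := exists_CM hD
  have hD0 := hcm.pos
  set i0 : Fin g := ⟨0, hg⟩
  set Y : Finset (Fin g) := {i0} with hY
  have hcm' := hcm.fl Y
  obtain ⟨v1, h1⟩ := hTH D g t hcm
  obtain ⟨v2, h2⟩ := hTH D g (fl D t Y) hcm'
  have hw1 := fun i => comb hTH hU hR hF hcm h1 i
  have hw2 := fun i => comb hTH hU hR hF hcm' h2 i
  obtain ⟨s1, κ1, N1, hN1, hκ1, hv1, hκ1a, hd1, hn1, hta1, hq1⟩ := h1
  obtain ⟨s2, κ2, N2, hN2, hκ2, hv2, hκ2a, hd2, hn2, hta2, hq2⟩ := h2
  have hNN : 0 < N1 * N2 := Nat.mul_pos hN1 hN2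
  have hcov := cov_emb hcm.toEmb hg hNN
  have hQ1 : ∀ u ∈ latO D t (N1 * N2), QPn (fun z => s1 (fun i => v1 i * z i)) κ1 u := by
    rintro u ⟨c, rfl⟩
    have h1 := hq1 (fun j => (N2 : ℤ) * c j)
    have h2 : (fun i => (N1 : ℂ) * emb D (fun j => (N2 : ℤ) * c j) (t i)) =
        fun i => ((N1 * N2 : ℕ) : ℂ) * emb D c (t i) := by
      funext i
      rw [emb_mul]
      push_cast
      ring
    rw [h2] at h1
    exact h1
  have hQ2 : ∀ u ∈ latO D t (N1 * N2),
      QPn (fun z => s2 (fun i => v2 i * z i)) κ2 (swu Y u) := by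
    rintro u ⟨c, rfl⟩
    have h1 := hq2 (fun j => (N1 : ℤ) * c j)
    have h2 : (fun i => (N2 : ℂ) * emb D (fun j => (N1 : ℤ) * c j) (fl D t Y i)) =
        swu Y (fun i => ((N1 * N2 : ℕ) : ℂ) * emb D c (t i)) := by
      funext i
      rw [emb_mul]
      unfold swu fl
      by_cases hi : i ∈ Y
      · rw [if_pos hi, if_pos hi, map_mul, emb_conj hD0 c (s' := (D - 1) * t i)
          (by rw [add_comm]; exact dvd_fl hD0 _), map_natCast]
        push_cast
        ring
      · rw [if_neg hi, if_neg hi]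
        push_cast
        ring
    rw [h2] at h1
    exact h1
  have key := hA g Y v1 v2 κ1 κ2 s1 s2 (latO D t (N1 * N2)) (singleton_nonempty _) hv1 hv2 hκ1 hκ2
    hκ1a hκ2a hd1 hd2 hn1 hn2 hta1 hta2 hQ1 hQ2 hcov k θ (by
      intro i
      have p1 := hv1 i
      have p2 := hv2 i
      unfold cc
      split_ifs with hi
      · refine alg_of_WG hx (div_pos Real.pi_pos (mul_pos p1 p2)) ?_
        have e1 : Real.log (Real.pi / (v1 i * v2 i)) =
            -((Real.log (v1 i) - Real.log Real.pi / 2) + (Real.log (v2 i) - Real.log Real.pi / 2)) := by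
          rw [Real.log_div Real.pi_pos.ne' (mul_pos p1 p2).ne', Real.log_mul p1.ne' p2.ne']
          ring
        rw [e1]
        exact (WG D).neg_mem ((WG D).add_mem (hw1 i) (hw2 i))
      · refine alg_of_WG hx (div_pos p2 p1) ?_
        have e1 : Real.log (v2 i / v1 i) =
            (Real.log (v2 i) - Real.log Real.pi / 2) - (Real.log (v1 i) - Real.log Real.pi / 2) := by
          rw [Real.log_div p2.ne' p1.ne']
          ring
        rw [e1]
        exact (WG D).sub_mem (hw2 i) (hw1 i))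
  rw [hY, card_singleton, Nat.cast_one, div_one] at key
  have h3 : g ≤ k := by exact_mod_cast key
  have h4 := hcm.card
  omega

/-- **`φ(D)/2` algebraically independent gamma values for every level** -/
theorem ind_all {D : ℕ} (hD : 2 < D) : ∃ J : Finset ℕ, Ind D J ∧ D.totient ≤ 2 * J.card := by
  classical
  obtain ⟨J, hJ, hc⟩ := extract (ι := {j // j ∈ Ioo 0 D})
    (fun j => Real.Gamma ((j : ℕ) / D) / Real.sqrt Real.pi)
    ((D.totient : ℝ) / 2) (by
      intro k θ hx
      have h1 := trdeg_all hA hTH hU hR hF hD k θ (fun j hj => hx ⟨j, hj⟩)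
      rw [div_le_iff₀ two_pos]
      have h2 : (D.totient : ℝ) ≤ ((2 * k : ℕ) : ℝ) := by exact_mod_cast h1
      push_cast at h2
      linarith)
  refine ⟨J.image Subtype.val, ⟨hD, ?_, ?_⟩, ?_⟩
  · intro j hj
    rw [mem_image] at hj
    obtain ⟨x, -, rfl⟩ := hj
    exact mem_Ioo.1 x.2
  · have hmem : ∀ j : J.image Subtype.val, ∃ x : J, ((x : {j // j ∈ Ioo 0 D}) : ℕ) = j := by
      intro j
      have := j.2
      rw [mem_image] at this
      obtain ⟨x, hx, hxj⟩ := this
      exact ⟨⟨x, hx⟩, hxj⟩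
    choose f hf using hmem
    have h1 := hJ.comp f (by
      intro i j hij
      apply Subtype.ext
      rw [← hf i, ← hf j, hij])
    have h2 : (fun j : J.image Subtype.val =>
        Real.Gamma ((j : ℕ) / D) / Real.sqrt Real.pi) =
        (fun j : J => Real.Gamma (((j : {j // j ∈ Ioo 0 D}) : ℕ) / D) / Real.sqrt Real.pi) ∘ f := by
      funext j
      simp only [Function.comp]
      rw [hf j]
    rw [h2]
    exact h1
  · rw [card_image_of_injective _ Subtype.val_injective]
    rw [div_le_iff₀ two_pos] at hc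
    have h2 : (D.totient : ℝ) ≤ ((2 * J.card : ℕ) : ℝ) := by
      push_cast
      linarith
    exact_mod_cast h2

end

end

end Pool.Agent.RCM
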