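import Pool.Agent.RCM.PiG

/-!
All levels, block COMB, part 13: Beta values algebraic over `ℚ(θ)` have at most two CM types.
-/

set_option autoImplicit false

namespace Pool.Agent.RCM

open Finset IntermediateField Pool.Agent.Helper99.Rohr Pool.Agent.ROH Pool.Agent.ROH8
  Pool.Agent.RHK

/-- a pair of rationals of level `M`, with `a, b, a + b` not integral -/
def BPair (M : ℕ) (a b : ℚ) : Prop := (∃ z : ℤ, (M : ℚ) * a = z) ∧ (∃ z : ℤ, (M : ℚ) * b = z) ∧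
  ∀ z : ℤ, a ≠ z ∧ b ≠ z ∧ a + b ≠ z

/-- the Beta value -/
noncomputable def bet (a b : ℚ) : ℝ := Real.Gamma a * Real.Gamma b / Real.Gamma (a + b)

/-- the CM type of a Beta value -/
def cmt (a b : ℚ) (m : ℕ) : Prop := 1 < Int.fract ((m : ℚ) * a) + Int.fract ((m : ℚ) * b)

/-- the class function of a Beta value -/
noncomputable def bcl (D : ℕ) (a b : ℚ) : (ZMod D)ˣ → ℚ :=
  Sf D (Int.fract a) + Sf D (Int.fract b) - Sf D (Int.fract (a + b))

/-- the logarithm -/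
noncomputable def blog (a b : ℚ) : ℝ :=
  lg (Int.fract a) + lg (Int.fract b) - lg (Int.fract (a + b))

theorem fract_ne {x : ℚ} (h : ∀ z : ℤ, x ≠ z) : Int.fract x ≠ 0 := by
  intro h0
  apply h ⌊x⌋
  have h1 := Int.floor_add_fract x
  rw [h0, add_zero] at h1
  exact h1.symm

section

variable {M : ℕ} {a b : ℚ}

theorem BPair.pts (h : BPair M a b) {D : ℕ} (hMD : M ∣ D) : IsPt D (Int.fract a) ∧
    IsPt D (Int.fract b) ∧ IsPt D (Int.fract (a + b)) := by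
  obtain ⟨⟨z1, hz1⟩, ⟨z2, hz2⟩, hn⟩ := h
  refine ⟨(isPt_fract ⟨z1, hz1⟩ (fract_ne fun z => (hn z).1)).mono hMD,
    (isPt_fract ⟨z2, hz2⟩ (fract_ne fun z => (hn z).2.1)).mono hMD,
    (isPt_fract ⟨z1 + z2, ?_⟩ (fract_ne fun z => (hn z).2.2)).mono hMD⟩
  push_cast
  rw [mul_add, hz1, hz2]

theorem BPair.gm (h : BPair M a b) {D : ℕ} (hMD : M ∣ D) : (bcl D a b, blog a b) ∈ GM D := by
  obtain ⟨h1, h2, h3⟩ := h.pts hMD
  exact (GM D).sub_mem ((GM D).add_mem (gm_sf h1) (gm_sf h2)) (gm_sf h3)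

theorem BPair.odd (h : BPair M a b) {D : ℕ} [NeZero D] (hMD : M ∣ D) : bcl D a b ∈ oddW D := by
  obtain ⟨h1, h2, h3⟩ := h.pts hMD
  exact (oddW D).sub_mem ((oddW D).add_mem (Sf_odd h1) (Sf_odd h2)) (Sf_odd h3)

theorem BPair.val (h : BPair M a b) {D : ℕ} [NeZero D] (hMD : M ∣ D) {m : ℕ} {t : (ZMod D)ˣ}
    (hm : m.Coprime D) (ht : (t : ZMod D) = (m : ZMod D)) :
    (cmt a b m ∧ bcl D a b t = 1 / 2) ∨ (¬ cmt a b m ∧ bcl D a b t = -1 / 2) := by
  obtain ⟨h1, h2, h3⟩ := h.pts hMD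
  have hs : ∀ x : ℚ, saw m (Int.fract x) = Int.fract ((m : ℚ) * x) - 1 / 2 := by
    intro x
    unfold saw
    rw [fract_mul_fract]
  have hv : bcl D a b t = Int.fract ((m : ℚ) * a) + Int.fract ((m : ℚ) * b) -
      Int.fract ((m : ℚ) * (a + b)) - 1 / 2 := by
    unfold bcl
    rw [Pi.sub_apply, Pi.add_apply, Sf_apply ht h1.2.2, Sf_apply ht h2.2.2, Sf_apply ht h3.2.2, hs,
      hs, hs]
    ring
  have hne : Int.fract ((m : ℚ) * (a + b)) ≠ 0 := by
    intro h0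
    have h4 := not_int hm h3 ⌊(m : ℚ) * Int.fract (a + b)⌋
    apply h4
    have h5 := Int.floor_add_fract ((m : ℚ) * Int.fract (a + b))
    rw [fract_mul_fract, h0, add_zero] at h5
    exact h5.symm
  have ha0 := Int.fract_nonneg ((m : ℚ) * a)
  have ha1 := Int.fract_lt_one ((m : ℚ) * a)
  have hb0 := Int.fract_nonneg ((m : ℚ) * b)
  have hb1 := Int.fract_lt_one ((m : ℚ) * b)
  have hsum : Int.fract ((m : ℚ) * (a + b)) =
      Int.fract (Int.fract ((m : ℚ) * a) + Int.fract ((m : ℚ) * b)) := by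
    have e : (m : ℚ) * (a + b) = Int.fract ((m : ℚ) * a) + Int.fract ((m : ℚ) * b) +
        ((⌊(m : ℚ) * a⌋ + ⌊(m : ℚ) * b⌋ : ℤ) : ℚ) := by
      have e1 := Int.floor_add_fract ((m : ℚ) * a)
      have e2 := Int.floor_add_fract ((m : ℚ) * b)
      push_cast
      linarith
    rw [e, Int.fract_add_intCast]
  unfold cmt
  rcases lt_trichotomy (Int.fract ((m : ℚ) * a) + Int.fract ((m : ℚ) * b)) 1 with h4 | h4 | h4
  · right
    refine ⟨not_lt.2 h4.le, ?_⟩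
    have h5 : Int.fract (Int.fract ((m : ℚ) * a) + Int.fract ((m : ℚ) * b)) =
        Int.fract ((m : ℚ) * a) + Int.fract ((m : ℚ) * b) :=
      Int.fract_eq_self.2 ⟨by linarith, h4⟩
    rw [hv, hsum, h5]
    ring
  · exfalso
    apply hne
    rw [hsum, h4, Int.fract_one]
  · left
    refine ⟨h4, ?_⟩
    have h5 : Int.fract (Int.fract ((m : ℚ) * a) + Int.fract ((m : ℚ) * b)) =
        Int.fract ((m : ℚ) * a) + Int.fract ((m : ℚ) * b) - 1 := by
      rw [← Int.fract_sub_one]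
      exact Int.fract_eq_self.2 ⟨by linarith, by linarith⟩
    rw [hv, hsum, h5]
    ring

/-- the Beta value in terms of `blog` -/
theorem BPair.bet_eq (h : BPair M a b) : ∃ q : ℚ, q ≠ 0 ∧
    bet a b = q * (Real.sqrt Real.pi * Real.exp (blog a b)) := by
  obtain ⟨-, -, hn⟩ := h
  obtain ⟨q1, hq1, e1⟩ := gamma_fract (x := a) fun z => (hn z).1
  obtain ⟨q2, hq2, e2⟩ := gamma_fract (x := b) fun z => (hn z).2.1
  obtain ⟨q3, hq3, e3⟩ := gamma_fract (x := a + b) fun z => (hn z).2.2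
  have hs : 0 < Real.sqrt Real.pi := Real.sqrt_pos.2 Real.pi_pos
  have hpos : ∀ {x : ℚ}, (∀ z : ℤ, x ≠ z) → 0 < Int.fract x := fun hx =>
    lt_of_le_of_ne (Int.fract_nonneg _) (Ne.symm (fract_ne hx))
  have f1 := exp_lg (hpos fun z => (hn z).1)
  have f2 := exp_lg (hpos fun z => (hn z).2.1)
  have f3 := exp_lg (hpos fun z => (hn z).2.2)
  refine ⟨q1 * q2 / q3, div_ne_zero (mul_ne_zero hq1 hq2) hq3, ?_⟩
  have g3 : Real.Gamma ((Int.fract (a + b) : ℚ) : ℝ) ≠ 0 :=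
    (Real.Gamma_pos_of_pos (by exact_mod_cast hpos fun z => (hn z).2.2)).ne'
  have hq3' : (q3 : ℝ) ≠ 0 := by exact_mod_cast hq3
  unfold bet blog
  have e3' : Real.Gamma ((a : ℝ) + b) = q3 * Real.Gamma ((Int.fract (a + b) : ℚ) : ℝ) := by
    rw [← e3]
    push_cast
    rfl
  rw [e1, e2, e3', Real.exp_sub, Real.exp_add, f1, f2, f3, Rat.cast_div, Rat.cast_mul]
  field_simp

end

theorem rat_alg {F : IntermediateField ℚ ℂ} (q : ℚ) : IsAlgebraic F ((q : ℚ) : ℂ) := by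
  have : ((q : ℚ) : ℂ) = algebraMap F ℂ ((q : ℚ) : F) := by simp
  rw [this]
  exact isAlgebraic_algebraMap _

theorem blog_diff {M M' : ℕ} {a b a' b' : ℚ} (h : BPair M a b) (h' : BPair M' a' b')
    {F : IntermediateField ℚ ℂ} (hb : IsAlgebraic F ((bet a b : ℝ) : ℂ))
    (hb' : IsAlgebraic F ((bet a' b' : ℝ) : ℂ)) : blog a b - blog a' b' ∈ LogF F := by
  obtain ⟨q, hq, e⟩ := h.bet_eq
  obtain ⟨q', hq', e'⟩ := h'.bet_eq
  rw [mem_LogF]
  have hs : Real.sqrt Real.pi ≠ 0 := (Real.sqrt_pos.2 Real.pi_pos).ne'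
  have h1 : ((Real.exp (blog a b - blog a' b') : ℝ) : ℂ) =
      ((bet a b : ℝ) : ℂ) * ((bet a' b' : ℝ) : ℂ)⁻¹ * (((q' / q : ℚ) : ℚ) : ℂ) := by
    have hqr : (q : ℝ) ≠ 0 := by exact_mod_cast hq
    have hqr' : (q' : ℝ) ≠ 0 := by exact_mod_cast hq'
    have h2 : Real.exp (blog a b - blog a' b') = bet a b * (bet a' b')⁻¹ * ((q' / q : ℚ) : ℝ) := by
      rw [e, e', Real.exp_sub, Rat.cast_div]
      have := (Real.exp_pos (blog a' b')).ne'
      field_simp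
    rw [h2]
    push_cast
    ring
  rw [h1]
  exact (hb.mul hb'.inv).mul (rat_alg _)

theorem blog_pi {M : ℕ} {a b : ℚ} (h : BPair M a b)
    (hb : IsAlgebraic ℚ⟮(Real.pi : ℂ)⟯ ((bet a b : ℝ) : ℂ)) :
    blog a b ∈ LogF ℚ⟮(Real.pi : ℂ)⟯ := by
  obtain ⟨q, hq, e⟩ := h.bet_eq
  rw [mem_LogF]
  have hs : Real.sqrt Real.pi ≠ 0 := (Real.sqrt_pos.2 Real.pi_pos).ne'
  have hsa : IsAlgebraic ℚ⟮(Real.pi : ℂ)⟯ ((Real.sqrt Real.pi : ℝ) : ℂ) := by
    apply alg_int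
    rw [Real.sq_sqrt Real.pi_pos.le]
    exact GP.DedM.self_alg _
  have h1 : ((Real.exp (blog a b) : ℝ) : ℂ) =
      ((bet a b : ℝ) : ℂ) * ((Real.sqrt Real.pi : ℝ) : ℂ)⁻¹ * (((q⁻¹ : ℚ) : ℚ) : ℂ) := by
    have hqr : (q : ℝ) ≠ 0 := by exact_mod_cast hq
    have h2 : Real.exp (blog a b) = bet a b * (Real.sqrt Real.pi)⁻¹ * ((q⁻¹ : ℚ) : ℝ) := by
      rw [e, Rat.cast_inv]
      field_simp
    rw [h2]
    push_cast
    ring
  rw [h1]
  exact (hb.mul hsa.inv).mul (rat_alg _)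

/-- two linearly dependent class functions from `dim_le` -/
theorem dep_two (hT : TrAll) (θ : ℂ) {D : ℕ} (hD : 2 < D) {χ χ' : (ZMod D)ˣ → ℚ} {X X' : ℝ}
    (h : (χ, X) ∈ GM D) (h' : (χ', X') ∈ GM D) (ho : χ ∈ oddW D) (ho' : χ' ∈ oddW D)
    (hX : X ∈ LogF ℚ⟮θ⟯) (hX' : X' ∈ LogF ℚ⟮θ⟯) :
    ∃ s t : ℚ, (s ≠ 0 ∨ t ≠ 0) ∧ s • χ + t • χ' = 0 := by
  have hnot : ¬ LinearIndependent ℚ ![χ, χ'] := by
    intro hli
    have h3 := dim_le hT hD (fun _ : Fin 1 => θ) (χ := ![χ, χ']) (X := ![X, X'])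
      (by
        intro i
        fin_cases i
        · exact h
        · exact h')
      (by
        intro i
        fin_cases i
        · exact ho
        · exact ho')
      (by
        intro i
        rw [range_one]
        fin_cases i
        · exact hX
        · exact hX') hli
    omega
  rw [LinearIndependent.pair_iff] at hnot
  push Not at hnot
  obtain ⟨s, t, hst, hne⟩ := hnot
  refine ⟨s, t, ?_, hst⟩
  by_cases hs : s = 0
  · exact Or.inr (hne hs)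
  · exact Or.inl hs

/-- **at most two types over `ℚ(θ)`** -/
theorem three_types (hT : TrAll) (θ : ℂ) {M : ℕ} (hM : 0 < M) {a b : Fin 3 → ℚ}
    (h : ∀ i, BPair M (a i) (b i)) (hb : ∀ i, IsAlgebraic ℚ⟮θ⟯ ((bet (a i) (b i) : ℝ) : ℂ)) :
    ∃ i j : Fin 3, i ≠ j ∧ ∀ m : ℕ, m.Coprime M → (cmt (a i) (b i) m ↔ cmt (a j) (b j) m) := by
  classical
  by_contra hcon
  push Not at hcon
  set D := 3 * M with hDdef
  have hD : 2 < D := by omega
  have hD0 : 0 < D := by omega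
  have : NeZero D := ⟨hD0.ne'⟩
  have hMD : M ∣ D := Dvd.intro_left _ rfl
  set χ : Fin 3 → ((ZMod D)ˣ → ℚ) := fun i => bcl D (a i) (b i) with hχ
  -- the class functions are pairwise different
  have hper : ∀ (i : Fin 3) (m m' : ℕ), m ≡ m' [MOD M] →
      (cmt (a i) (b i) m ↔ cmt (a i) (b i) m') := by
    intro i m m' hmm
    unfold cmt
    rw [ROH.fract_congr hmm (h i).1, ROH.fract_congr hmm (h i).2.1]
  have hneq : ∀ i j : Fin 3, i ≠ j → χ i ≠ χ j := by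
    intro i j hij heq
    obtain ⟨m, hm, hne⟩ := hcon i j hij
    obtain ⟨m', hm', hmm⟩ := lift_coprime (M := D) hM hD0 hm
    obtain ⟨t, ht⟩ := unit_of hm'
    have h1 := (h i).val hMD hm' ht
    have h2 := (h j).val hMD hm' ht
    have h3 : bcl D (a i) (b i) t = bcl D (a j) (b j) t := congrFun heq t
    have h4 := hper i m' m hmm
    have h5 := hper j m' m hmm
    rcases h1 with ⟨h1, h1'⟩ | ⟨h1, h1'⟩ <;> rcases h2 with ⟨h2, h2'⟩ | ⟨h2, h2'⟩
    · rcases hne with ⟨h6, h7⟩ | ⟨h6, h7⟩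
      · exact h7 (h5.1 h2)
      · exact h6 (h4.1 h1)
    · rw [h1', h2'] at h3
      norm_num at h3
    · rw [h1', h2'] at h3
      norm_num at h3
    · rcases hne with ⟨h6, h7⟩ | ⟨h6, h7⟩
      · exact h1 (h4.2 h6)
      · exact h2 (h5.2 h7)
  obtain ⟨s, t, hst, hrel⟩ := dep_two hT θ hD
    ((GM D).sub_mem ((h 1).gm hMD) ((h 0).gm hMD)) ((GM D).sub_mem ((h 2).gm hMD) ((h 0).gm hMD))
    ((oddW D).sub_mem ((h 1).odd hMD) ((h 0).odd hMD))
    ((oddW D).sub_mem ((h 2).odd hMD) ((h 0).odd hMD))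
    (blog_diff (h 1) (h 0) (hb 1) (hb 0)) (blog_diff (h 2) (h 0) (hb 2) (hb 0))
  have hrel' : ∀ u : (ZMod D)ˣ, s * (χ 1 u - χ 0 u) + t * (χ 2 u - χ 0 u) = 0 := by
    intro u
    have := congrFun hrel u
    simpa using this
  have hval : ∀ (i : Fin 3) (u : (ZMod D)ˣ), χ i u = 1 / 2 ∨ χ i u = -1 / 2 := by
    intro i u
    have h1 := (h i).val hMD (m := (u : ZMod D).val) (t := u) (ZMod.val_coe_unit_coprime u)
      (by rw [ZMod.natCast_zmod_val])
    rcases h1 with ⟨-, h1⟩ | ⟨-, h1⟩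
    · exact Or.inl h1
    · exact Or.inr h1
  have hex : ∀ i j : Fin 3, i ≠ j → ∃ u, χ i u ≠ χ j u := by
    intro i j hij
    by_contra h1
    push Not at h1
    exact hneq i j hij (funext h1)
  obtain ⟨u1, hu1⟩ := hex 1 0 (by decide)
  obtain ⟨u2, hu2⟩ := hex 2 0 (by decide)
  obtain ⟨u3, hu3⟩ := hex 2 1 (by decide)
  have r1 := hrel' u1
  have r2 := hrel' u2
  have r3 := hrel' u3
  rcases hst with hs | ht
  · -- `s ≠ 0`
    rcases hval 0 u1 with a0 | a0 <;> rcases hval 1 u1 with a1 | a1 <;>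
      rcases hval 2 u1 with a2 | a2 <;> rcases hval 0 u2 with b0 | b0 <;>
      rcases hval 1 u2 with b1 | b1 <;> rcases hval 2 u2 with b2 | b2 <;>
      rcases hval 0 u3 with c0 | c0 <;> rcases hval 1 u3 with c1 | c1 <;>
      rcases hval 2 u3 with c2 | c2 <;>
      rw [a0, a1] at hu1 <;> rw [b0, b2] at hu2 <;> rw [c1, c2] at hu3 <;>
      rw [a0, a1, a2] at r1 <;> rw [b0, b1, b2] at r2 <;> rw [c0, c1, c2] at r3 <;>
      first
      | exact hu1 rfl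
      | exact hu2 rfl
      | exact hu3 rfl
      | exact hs (by linarith)
  · rcases hval 0 u1 with a0 | a0 <;> rcases hval 1 u1 with a1 | a1 <;>
      rcases hval 2 u1 with a2 | a2 <;> rcases hval 0 u2 with b0 | b0 <;>
      rcases hval 1 u2 with b1 | b1 <;> rcases hval 2 u2 with b2 | b2 <;>
      rcases hval 0 u3 with c0 | c0 <;> rcases hval 1 u3 with c1 | c1 <;>
      rcases hval 2 u3 with c2 | c2 <;>
      rw [a0, a1] at hu1 <;> rw [b0, b2] at hu2 <;> rw [c1, c2] at hu3 <;>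
      rw [a0, a1, a2] at r1 <;> rw [b0, b1, b2] at r2 <;> rw [c0, c1, c2] at r3 <;>
      first
      | exact hu1 rfl
      | exact hu2 rfl
      | exact hu3 rfl
      | exact ht (by linarith)

/-- **at most one pair of complementary types over `ℚ(π)`** -/
theorem pi_types (hT : TrAll) {M : ℕ} (hM : 0 < M) {a b a' b' : ℚ}
    (h : BPair M a b) (h' : BPair M a' b')
    (hb : IsAlgebraic ℚ⟮(Real.pi : ℂ)⟯ ((bet a b : ℝ) : ℂ))
    (hb' : IsAlgebraic ℚ⟮(Real.pi : ℂ)⟯ ((bet a' b' : ℝ) : ℂ)) :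
    (∀ m : ℕ, m.Coprime M → (cmt a b m ↔ cmt a' b' m)) ∨
      ∀ m : ℕ, m.Coprime M → (cmt a b m ↔ ¬ cmt a' b' m) := by
  classical
  set D := 3 * M with hDdef
  have hD : 2 < D := by omega
  have hD0 : 0 < D := by omega
  have : NeZero D := ⟨hD0.ne'⟩
  have hMD : M ∣ D := Dvd.intro_left _ rfl
  have hper : ∀ {a b : ℚ}, BPair M a b → ∀ m m' : ℕ, m ≡ m' [MOD M] → (cmt a b m ↔ cmt a b m') := by
    intro a b h m m' hmm
    unfold cmt
    rw [ROH.fract_congr hmm h.1, ROH.fract_congr hmm h.2.1]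
  obtain ⟨s, t, hst, hrel⟩ := dep_two hT (Real.pi : ℂ) hD (h.gm hMD) (h'.gm hMD) (h.odd hMD)
    (h'.odd hMD) (blog_pi h hb) (blog_pi h' hb')
  have hrel' : ∀ u : (ZMod D)ˣ, s * bcl D a b u + t * bcl D a' b' u = 0 := by
    intro u
    have := congrFun hrel u
    simpa using this
  have key : ∀ m : ℕ, m.Coprime M → ((cmt a b m ↔ cmt a' b' m) ∧ s + t = 0) ∨
      ((cmt a b m ↔ ¬ cmt a' b' m) ∧ s - t = 0) := by
    intro m hm
    obtain ⟨m', hm', hmm⟩ := lift_coprime (M := D) hM hD0 hm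
    obtain ⟨u, hu⟩ := unit_of hm'
    have r := hrel' u
    have p1 := hper h m' m hmm
    have p2 := hper h' m' m hmm
    rcases h.val hMD hm' hu with ⟨h1, h1'⟩ | ⟨h1, h1'⟩ <;>
      rcases h'.val hMD hm' hu with ⟨h2, h2'⟩ | ⟨h2, h2'⟩ <;> rw [h1', h2'] at r
    · left
      exact ⟨⟨fun _ => p2.1 h2, fun _ => p1.1 h1⟩, by linarith⟩
    · right
      exact ⟨⟨fun _ h3 => h2 (p2.2 h3), fun _ => p1.1 h1⟩, by linarith⟩
    · right
      exact ⟨⟨fun h3 => absurd (p1.2 h3) h1, fun h3 => absurd (p2.1 h2) h3⟩, by linarith⟩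
    · left
      exact ⟨⟨fun h3 => absurd (p1.2 h3) h1, fun h3 => absurd (p2.2 h3) h2⟩, by linarith⟩
  by_cases hs : s + t = 0
  · left
    intro m hm
    rcases key m hm with ⟨h1, -⟩ | ⟨-, h1⟩
    · exact h1
    · exfalso
      have : s = 0 := by linarith
      have : t = 0 := by linarith
      rcases hst with h2 | h2 <;> contradiction
  · right
    intro m hm
    rcases key m hm with ⟨-, h1⟩ | ⟨h1, -⟩
    · exact absurd h1 hs
    · exact h1

end Pool.Agent.RCM
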