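import Pool.Agent.RCM.Uni

/-!
All levels, block COMB, part 8: the conductor of the exceptional line is not 1, 2, 3, 4, and not
twice an odd number (Chudnovsky's theorems on `Γ(1/3)` and `Γ(1/4)`).
-/

set_option autoImplicit false

namespace Pool.Agent.RCM

open Finset IntermediateField Pool.Agent.Helper99.Rohr Pool.Agent.ROH Pool.Agent.ROH8
  Pool.Agent.RHK

theorem ind_single {D : ℕ} (hD : 2 < D)
    (hT : Transcendental ℚ⟮(Real.pi : ℂ)⟯ ((Real.Gamma (1 / D) / Real.sqrt Real.pi : ℝ) : ℂ)) :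
    Ind D {1} := by
  refine ⟨hD, fun j hj => ?_, ?_⟩
  · rw [mem_singleton] at hj
    omega
  · have : Unique (({1} : Finset ℕ) : Type) := by
      show Unique {x // x ∈ ({1} : Finset ℕ)}
      exact ⟨⟨⟨1, mem_singleton_self 1⟩⟩, fun x => Subtype.ext (mem_singleton.1 x.2)⟩
    rw [algebraicIndependent_unique_type_iff]
    have hd : ((default : ({1} : Finset ℕ)) : ℕ) = 1 := mem_singleton.1 (default : ({1} : Finset ℕ)).2
    intro h
    apply hT
    rw [hd, Nat.cast_one] at h
    exact alg_up h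

/-- no violation of level `3` or `4` -/
theorem no_viol {D : ℕ} (hD : 2 < D) (hfull : D.totient ≤ 2)
    (hT : Transcendental ℚ⟮(Real.pi : ℂ)⟯ ((Real.Gamma (1 / D) / Real.sqrt Real.pi : ℝ) : ℂ))
    (hlg : lg ((1 : ℕ) / D) = Real.log (Real.Gamma (1 / D) / Real.sqrt Real.pi))
    {r : ℕ} {a : Fin r → ℚ} {M : ℕ} (hv : Viol a M) (hcl : ClassLevel D M a) : False := by
  have h := ind_single hD hT
  have hf : D.totient ≤ 2 * ({1} : Finset ℕ).card := by
    rw [card_singleton]
    exact hfull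
  obtain ⟨hM, hMa, hnp, hne⟩ := hv
  obtain ⟨c, hc⟩ := h.class_eq hf hM hMa hcl
  obtain ⟨U, -, hU⟩ := h.line hf
  have h0 := (hU r a M hM hMa hnp hcl hne).1
  have hg := h.gamma_iff hM hMa hnp hc
  have hfi := h.frac_iff hM hMa hc
  have hgm : GammaMult a := by
    by_contra hgm
    apply hne
    constructor
    · exact fun h1 => absurd h1 hgm
    · intro h1
      exact absurd (hfi.1 h1).2 h0.ne'
  have h1 := hg.1 hgm
  rw [sum_singleton, hlg] at h1
  have hD' : (0 : ℝ) < 1 / D := by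
    have : (0 : ℝ) < D := by
      have : 0 < D := by omega
      exact_mod_cast this
    positivity
  exact no_pi_rat (div_pos (Real.Gamma_pos_of_pos hD') (Real.sqrt_pos.2 Real.pi_pos)) hT _ _ h0 h1

theorem no_viol3 {r : ℕ} {a : Fin r → ℚ} {M : ℕ} (hv : Viol a M) : ¬ ClassLevel 3 M a := by
  intro hcl
  have hT := trans_div gamma3
  refine no_viol (D := 3) (by norm_num) (by decide) ?_ ?_ hv hcl
  · push_cast
    exact_mod_cast hT
  · have := lg3
    push_cast
    exact this

theorem no_viol4 {r : ℕ} {a : Fin r → ℚ} {M : ℕ} (hv : Viol a M) : ¬ ClassLevel 4 M a := by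
  intro hcl
  have hT := trans_div gamma4
  refine no_viol (D := 4) (by norm_num) (by decide) ?_ ?_ hv hcl
  · push_cast
    exact_mod_cast hT
  · have := lg4
    push_cast
    exact this

/-- the equivalence fails only with integral entries, then the gamma product is an algebraic
multiple -/
theorem viol_gamma (hI : ∀ D : ℕ, 2 < D → ∃ J : Finset ℕ, Ind D J ∧ D.totient ≤ 2 * J.card)
    {r : ℕ} {a : Fin r → ℚ} {M : ℕ} (hv : Viol a M) : GammaMult a ∧
      ¬ ∀ m : ℕ, 1 ≤ m → m ≤ M → Nat.Coprime m M → ∑ i, Int.fract ((m : ℚ) * a i) = (r : ℚ) / 2 := by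
  have h0 := (viol_line hI hv hv).1
  obtain ⟨hM, hMa, hnp, hne⟩ := hv
  obtain ⟨J, hJ, hc⟩ := hI (3 * M) (by omega)
  have hcl : ClassLevel (3 * M) M a := by
    apply classLevel_of_dvd
    intro i
    obtain ⟨z, hz⟩ := hMa i
    refine ⟨3 * z, ?_⟩
    push_cast
    rw [mul_assoc, hz]
  obtain ⟨c, hc'⟩ := hJ.class_eq hc hM hMa hcl
  have hfi := hJ.frac_iff hM hMa hc'
  have hnf : ¬ ∀ m : ℕ, 1 ≤ m → m ≤ M → Nat.Coprime m M →
      ∑ i, Int.fract ((m : ℚ) * a i) = (r : ℚ) / 2 := fun h1 => h0.ne' (hfi.1 h1).2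
  refine ⟨?_, hnf⟩
  by_contra hgm
  exact hne ⟨fun h1 => absurd h1 hgm, fun h1 => absurd h1 hnf⟩

/-- **one line of exceptions for all levels**, final form -/
theorem line_fin (hI : ∀ D : ℕ, 2 < D → ∃ J : Finset ℕ, Ind D J ∧ D.totient ≤ 2 * J.card) :
    ∃ (f : ℕ) (U : ℕ → ℚ), 5 ≤ f ∧ f % 4 ≠ 2 ∧
      (∀ m m' : ℕ, m ≡ m' [MOD f] → U m = U m') ∧
      (∃ m : ℕ, m.Coprime f ∧ U m ≠ 0) ∧
      ∀ (r : ℕ) (a : Fin r → ℚ) (M : ℕ), Viol a M → f ∣ M ∧ 0 < intCount a ∧
        (∀ m : ℕ, m.Coprime M → ∑ i, Int.fract ((m : ℚ) * a i) =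
          ((r : ℚ) - intCount a) / 2 + intCount a * U m) ∧
        ∀ D : ℕ, 0 < D → ClassLevel D M a → f ∣ D := by
  classical
  by_cases hex : ∃ (r : ℕ) (a : Fin r → ℚ) (M : ℕ), Viol a M
  · obtain ⟨f, U, hf, hU1, ⟨m0, hm0, hU0⟩, hall⟩ := line_all hI
    obtain ⟨r0, a0, M0, hv0⟩ := hex
    obtain ⟨hfM, hn0, hval, hmin⟩ := hall r0 a0 M0 hv0
    -- the class function of `a0` has level every multiple of `f`
    have hlev : ∀ D : ℕ, f ∣ D → ClassLevel D M0 a0 := by
      intro D hD m m' hm hm' hmm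
      have c : ∀ {m : ℕ}, m.Coprime (M0 * D) → m.Coprime M0 :=
        fun h => h.coprime_dvd_right (Dvd.intro _ rfl)
      rw [hval m (c hm), hval m' (c hm'), hU1 m m' ((c hm).coprime_dvd_right hfM)
        ((c hm').coprime_dvd_right hfM) (hmm.of_dvd hD)]
    have h3 : ¬ f ∣ 3 := fun h => no_viol3 hv0 (hlev 3 h)
    have h4 : ¬ f ∣ 4 := fun h => no_viol4 hv0 (hlev 4 h)
    have h5 : 5 ≤ f := by
      by_contra h5
      push Not at h5
      interval_cases f
      · exact h3 (one_dvd _)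
      · exact h4 (by norm_num)
      · exact h3 (by norm_num)
      · exact h4 (by norm_num)
    refine ⟨f, fun m => if m.Coprime f then U m else 0, h5, ?_, ?_, ⟨m0, hm0, ?_⟩, ?_⟩
    · intro h2
      -- level `f / 2`
      obtain ⟨k, hk⟩ : ∃ k, f = 2 * k := ⟨f / 2, by omega⟩
      have hk2 : k % 2 = 1 := by omega
      have hcl : ClassLevel k M0 a0 := by
        intro m m' hm hm' hmm
        have c : ∀ {m : ℕ}, m.Coprime (M0 * k) → m.Coprime M0 :=
          fun h => h.coprime_dvd_right (Dvd.intro _ rfl)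
        have hodd : ∀ {m : ℕ}, m.Coprime M0 → m % 2 = 1 := by
          intro m hm
          have h6 : m.Coprime 2 := hm.coprime_dvd_right ((Dvd.intro k hk.symm).trans hfM)
          rcases Nat.mod_two_eq_zero_or_one m with h7 | h7
          · exfalso
            have h8 : 2 ∣ m := Nat.dvd_of_mod_eq_zero h7
            have h9 := Nat.dvd_gcd h8 (dvd_refl 2)
            rw [h6] at h9
            omega
          · exact h7
        rw [hval m (c hm), hval m' (c hm'), hU1 m m' ((c hm).coprime_dvd_right hfM)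
          ((c hm').coprime_dvd_right hfM) ?_]
        rw [hk]
        have hc2 : Nat.Coprime 2 k := by
          rw [Nat.coprime_two_left, Nat.odd_iff]
          exact hk2
        rw [← Nat.modEq_and_modEq_iff_modEq_mul hc2]
        refine ⟨?_, hmm⟩
        show m % 2 = m' % 2
        rw [hodd (c hm), hodd (c hm')]
      have h6 := hmin k (by omega) hcl
      have h7 := Nat.le_of_dvd (by omega) h6
      omega
    · intro m m' hmm
      have hiff : m.Coprime f ↔ m'.Coprime f :=
        ⟨fun h => coprime_of_modEq hmm.symm h, fun h => coprime_of_modEq hmm h⟩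
      by_cases hm : m.Coprime f
      · simp only [if_pos hm, if_pos (hiff.1 hm)]
        exact hU1 m m' hm (hiff.1 hm) hmm
      · simp only [if_neg hm, if_neg (fun h => hm (hiff.2 h))]
    · simp only [if_pos hm0]
      exact hU0
    · intro r a M hv
      obtain ⟨h1, h2, h6, h7⟩ := hall r a M hv
      refine ⟨h1, h2, fun m hm => ?_, h7⟩
      simp only [if_pos (hm.coprime_dvd_right h1)]
      exact h6 m hm
  · refine ⟨5, fun _ => 1, le_refl 5, by norm_num, fun _ _ _ => rfl,
      ⟨1, Nat.coprime_one_left _, one_ne_zero⟩, ?_⟩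
    intro r a M hv
    exact absurd ⟨r, a, M, hv⟩ hex

end Pool.Agent.RCM
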