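import Pool.Agent.RCM.Cube

/-!
All levels, block COMB, part 4: the periods of all CM types of `ℚ(ζ_D)` are monomials in gamma values.
-/

set_option autoImplicit false

namespace Pool.Agent.RCM

open Finset Pool.Agent.Helper99.Rohr Pool.Agent.ROH Pool.Agent.ROH8 Pool.Agent.RHK

section

variable {D g : ℕ} {t : Fin g → ℕ}

theorem TD.pos {v : Fin g → ℝ} (h : TD D t v) : ∀ i, 0 < v i := by
  obtain ⟨s, κ, N, -, -, h1, -⟩ := h
  exact h1

theorem log_of_alg {x y : ℝ} (hx : 0 < x) (hy : 0 < y) (h : IsAlgebraic ℚ (x / y)) :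
    Real.log x - Real.log y ∈ LogAlg := by
  rw [← Real.log_div hx.ne' hy.ne', mem_LogAlg, Real.exp_log (div_pos hx hy)]
  exact h

/-- uniqueness -/
theorem TD.uniq (hU : UForm) (h : CM D g t) {v v' : Fin g → ℝ} (hv : TD D t v) (hv' : TD D t v')
    (i : Fin g) : Real.log (v i) - Real.log (v' i) ∈ LogAlg :=
  log_of_alg (hv.pos i) (hv'.pos i) (hU D g t v v' h hv hv' i)

/-- **the periods of all types are gamma monomials** -/
theorem comb (hTH : THForm) (hU : UForm) (hR : R4Form) (hF : ThetaForm) (h : CM D g t)
    {v : Fin g → ℝ} (hv : TD D t v) (i : Fin g) :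
    Real.log (v i) - Real.log Real.pi / 2 ∈ WG D := by
  classical
  have hD := h.two
  have hD0 := h.pos
  have : NeZero D := ⟨hD0.ne'⟩
  have hg : 0 < g := Nat.pos_of_ne_zero fun h0 => by subst h0; exact i.elim0
  choose w hw using fun S : Finset (Fin g) => hTH D g (fl D t S) (h.fl S)
  -- the function on the cube
  set π' := (WG D).mkQ with hπ
  set Q : Finset (Fin g) → ℝ ⧸ WG D := fun S => π' (Real.log (w S i) - Real.log Real.pi / 2) with hQ
  have hmk : ∀ x y : ℝ, x - y ∈ LogAlg → π' x = π' y := by
    intro x y hxy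
    rw [← sub_eq_zero, ← map_sub, hπ, Submodule.mkQ_apply, Submodule.Quotient.mk_eq_zero]
    exact alg_mem hxy
  have hcube : ∀ S a b, a ∉ S → b ∉ S → a ≠ b → i ∉ S → i ≠ a → i ≠ b →
      Q S + Q (insert a (insert b S)) = Q (insert a S) + Q (insert b S) := by
    intro S a b ha hb hab hi hia hib
    obtain ⟨v0, v1, v2, v3, h0, h1, h2, h3, h4⟩ := hR D g (fl D t S) (fl D t (insert a S))
      (fl D t (insert b S)) (fl D t (insert a (insert b S))) a b i (h.fl _) (h.fl _) (h.fl _)
      (h.fl _) hab hia hib (by
        intro j hj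
        unfold fl
        simp [hj]) (by
        unfold fl
        rw [if_pos (mem_insert_self _ _), if_neg ha]
        exact dvd_fl hD0 _) (by
        intro j hj
        unfold fl
        simp [hj]) (by
        unfold fl
        rw [if_pos (mem_insert_self _ _), if_neg hb]
        exact dvd_fl hD0 _) (by
        intro j hj1 hj2
        unfold fl
        simp [hj1, hj2]) (by
        unfold fl
        simp) (by
        unfold fl
        simp)
    have p0 := h0.pos i
    have p1 := h1.pos i
    have p2 := h2.pos i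
    have p3 := h3.pos i
    have e0 := (hw S).uniq hU (h.fl _) h0 i
    have e1 := (hw (insert a S)).uniq hU (h.fl _) h1 i
    have e2 := (hw (insert b S)).uniq hU (h.fl _) h2 i
    have e3 := (hw (insert a (insert b S))).uniq hU (h.fl _) h3 i
    have e4 := log_of_alg (mul_pos p0 p3) (mul_pos p1 p2) h4
    rw [Real.log_mul p0.ne' p3.ne', Real.log_mul p1.ne' p2.ne'] at e4
    rw [hQ]
    simp only
    rw [← map_add, ← map_add]
    apply hmk
    have e5 := LogAlg.sub_mem (LogAlg.add_mem (LogAlg.add_mem e0 e3) e4) (LogAlg.add_mem e1 e2)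
    have e6 : Real.log (w S i) - Real.log Real.pi / 2 +
        (Real.log (w (insert a (insert b S)) i) - Real.log Real.pi / 2) -
        (Real.log (w (insert a S) i) - Real.log Real.pi / 2 +
        (Real.log (w (insert b S) i) - Real.log Real.pi / 2)) =
        Real.log (w S i) - Real.log (v0 i) +
        (Real.log (w (insert a (insert b S)) i) - Real.log (v3 i)) +
        (Real.log (v0 i) + Real.log (v3 i) - (Real.log (v1 i) + Real.log (v2 i))) -
        (Real.log (w (insert a S) i) - Real.log (v1 i) +
        (Real.log (w (insert b S) i) - Real.log (v2 i))) := by ring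
    rw [e6]
    exact e5
  have hQS := cube i Q hcube
  -- the Fermat types
  have hFer : ∀ (a b : ℕ) (S : Finset (Fin g)), Triple D a b → (∀ j, InType D a b (fl D t S j)) →
      Q S = 0 := by
    intro a b S hab hS
    have hinj : Function.Injective (fun i => fl D t S i % D) := by
      intro j k hjk
      exact (h.fl S).inj j k hjk
    obtain ⟨s, κ, v, α, N, hN, hκ, hvp, hκa, hα, hα0, hve, hd, hn, hta, hq⟩ :=
      hF D a b g (fl D t S) hD hg hab.1 hab.2.1 hab.2.2.1 hab.2.2.2 hinj hS h.card
    have hTD : TD D (fl D t S) v := ⟨s, κ, N, hN, hκ, hvp, hκa, hd, hn, hta, hq⟩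
    have e1 := (hw S).uniq hU (h.fl S) hTD i
    have e2 := beta_mem hD hab.1 hab.2.1 (hS i) (hα i) (hα0 i) (hve i)
    rw [hQ]
    simp only
    rw [hπ, Submodule.mkQ_apply, Submodule.Quotient.mk_eq_zero]
    have e3 : Real.log (w S i) - Real.log Real.pi / 2 = (Real.log (w S i) - Real.log (v i)) +
        (Real.log (v i) - Real.log Real.pi / 2) := by ring
    rw [e3]
    exact (WG D).add_mem (alg_mem e1) e2
  -- the linear map
  set e : Fin g → ℝ ⧸ WG D := fun j =>
    if j = i then (2 : ℚ) • Q ∅ + ∑ k ∈ univ.erase i, (Q {k} - Q ∅) else -(Q {j} - Q ∅) with he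
  set u : Fin g → (ZMod D)ˣ := fun j => ZMod.unitOfCoprime (t j) (h.cop j) with hu
  have huv : ∀ j, ((u j : ZMod D)).val ≡ t j [MOD D] := by
    intro j
    rw [hu]
    simp only
    rw [ZMod.coe_unitOfCoprime, ZMod.val_natCast]
    exact Nat.mod_modEq _ _
  set L : ((ZMod D)ˣ → ℚ) →ₗ[ℚ] (ℝ ⧸ WG D) :=
    ∑ j, (LinearMap.proj (u j) : ((ZMod D)ˣ → ℚ) →ₗ[ℚ] ℚ).smulRight (e j) with hL
  have hLa : ∀ ψ : (ZMod D)ˣ → ℚ, L ψ = ∑ j, ψ (u j) • e j := by
    intro ψ
    rw [hL, LinearMap.sum_apply]
    rfl
  have hsume : ∑ j, e j = (2 : ℚ) • Q ∅ := by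
    rw [← add_sum_erase univ e (mem_univ i)]
    have h1 : ∑ j ∈ univ.erase i, e j = ∑ j ∈ univ.erase i, -(Q {j} - Q ∅) :=
      sum_congr rfl fun j hj => by
        rw [he]
        simp only
        rw [if_neg (ne_of_mem_erase hj)]
    rw [h1, sum_neg_distrib, he]
    simp only
    rw [if_pos trivial]
    abel
  -- value on the function of a type
  have hLS : ∀ (S : Finset (Fin g)) (ψ : (ZMod D)ˣ → ℚ), i ∉ S →
      (∀ j, ψ (u j) = if j ∈ S then -1 / 2 else 1 / 2) → L ψ = Q S := by
    intro S ψ hi hψ
    rw [hLa]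
    have h1 : ∀ j, ψ (u j) • e j = (1 / 2 : ℚ) • e j - if j ∈ S then e j else 0 := by
      intro j
      rw [hψ j]
      split_ifs
      · module
      · module
    rw [sum_congr rfl fun j _ => h1 j, sum_sub_distrib, ← smul_sum, hsume, smul_smul,
      sum_ite_mem, univ_inter]
    have h2 : ∑ j ∈ S, e j = -∑ j ∈ S, (Q {j} - Q ∅) := by
      rw [← sum_neg_distrib]
      refine sum_congr rfl fun j hj => ?_
      rw [he]
      simp only
      rw [if_neg]
      rintro rfl
      exact hi hj
    rw [h2, hQS S hi, show (1 / 2 : ℚ) * 2 = 1 by norm_num, one_smul, sub_neg_eq_add]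
  -- the Fermat types `(1, b)` are in the kernel
  have hker : ∀ b : ℕ, 0 < b → b + 1 < D → tyF D b ∈ LinearMap.ker L := by
    intro b hb hb1
    rw [LinearMap.mem_ker]
    have hval : ∀ j, tyF D b (u j) = if InType D 1 b (t j) then 1 / 2 else -1 / 2 := by
      intro j
      unfold tyF
      simp only [inType_congr (huv j)]
    have nd : ∀ n : ℕ, 0 < n → n < D → ¬ D ∣ n := fun n h0 h1 h2 =>
      absurd (Nat.le_of_dvd h0 h2) (by omega)
    have htr : Triple D 1 b := ⟨nd 1 one_pos (by omega), nd b hb (by omega),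
      nd (1 + b) (by omega) (by omega), Or.inl (Nat.coprime_one_left _)⟩
    have htr' : Triple D (D - 1) (D - b) := by
      refine ⟨nd _ (by omega) (by omega), nd _ (by omega) (by omega), ?_, Or.inl ?_⟩
      · intro h1
        have h2 : D ∣ (D - 1 + (D - b)) - D := (Nat.dvd_sub h1 (dvd_refl D))
        exact nd _ (by omega) (by omega) h2
      · have h1 : D = (D - 1) + 1 := by omega
        rw [Nat.coprime_comm]
        conv_lhs => rw [h1]
        simp
    have hneg : ∀ j, InType D 1 b ((D - 1) * t j) ↔ ¬ InType D 1 b (t j) := by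
      intro j
      refine inType_neg hD0 htr (h.cop j) ?_ ?_
      · have := (h.fl univ).cop j
        unfold fl at this
        rwa [if_pos (mem_univ _)] at this
      · rw [add_comm]
        exact dvd_fl hD0 _
    by_cases hi : InType D 1 b (t i)
    · -- `t i` in the type
      set S : Finset (Fin g) := univ.filter fun j => ¬ InType D 1 b (t j) with hS
      have h1 : L (tyF D b) = Q S := by
        refine hLS S _ (fun h => (mem_filter.1 h).2 hi) fun j => ?_
        have hm : j ∈ S ↔ ¬ InType D 1 b (t j) := by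
          rw [hS, mem_filter]
          exact ⟨fun h => h.2, fun h => ⟨mem_univ _, h⟩⟩
        rw [hval j]
        by_cases hj : InType D 1 b (t j)
        · rw [if_pos hj, if_neg fun h => hm.1 h hj]
        · rw [if_neg hj, if_pos (hm.2 hj)]
      rw [h1]
      refine hFer 1 b S htr fun j => ?_
      unfold fl
      by_cases hj : InType D 1 b (t j)
      · rw [if_neg (by rw [hS, mem_filter]; exact fun h => h.2 hj)]
        exact hj
      · rw [if_pos (by rw [hS, mem_filter]; exact ⟨mem_univ _, hj⟩)]
        exact (hneg j).2 hj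
    · -- `t i` in the complementary type
      set S : Finset (Fin g) := univ.filter fun j => InType D 1 b (t j) with hS
      have h1 : L (-tyF D b) = Q S := by
        refine hLS S _ (fun h => hi (mem_filter.1 h).2) fun j => ?_
        have hm : j ∈ S ↔ InType D 1 b (t j) := by
          rw [hS, mem_filter]
          exact ⟨fun h => h.2, fun h => ⟨mem_univ _, h⟩⟩
        rw [Pi.neg_apply, hval j]
        by_cases hj : InType D 1 b (t j)
        · rw [if_pos hj, if_pos (hm.2 hj)]
          norm_num
        · rw [if_neg hj, if_neg fun h => hj (hm.1 h)]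
          norm_num
      have h2 : Q S = 0 := by
        refine hFer (D - 1) (D - b) S htr' fun j => ?_
        rw [inType_compl hD hb hb1 ((h.fl S).cop j)]
        unfold fl
        by_cases hj : InType D 1 b (t j)
        · rw [if_pos (by rw [hS, mem_filter]; exact ⟨mem_univ _, hj⟩), hneg j]
          exact fun h => h hj
        · rw [if_neg (by rw [hS, mem_filter]; exact fun h => hj h.2)]
          exact hj
      rw [h2, map_neg] at h1
      exact neg_eq_zero.1 h1
  have hodd := fermat_span hD hker
  -- all `e j` vanish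
  have he0 : ∀ j, e j = 0 := by
    intro j
    set δ : (ZMod D)ˣ → ℚ := fun x => (if x = u j then 1 else 0) - (if x = -u j then 1 else 0) with hδ
    have h1 : δ ∈ oddW D := by
      intro x
      rw [hδ]
      simp only
      have h2 : (-x = u j) ↔ (x = -u j) := ⟨fun h => by rw [← h, neg_neg], fun h => by rw [h, neg_neg]⟩
      have h3 : (-x = -u j) ↔ (x = u j) := neg_inj
      simp only [h2, h3]
      ring
    have h2 := LinearMap.mem_ker.1 (hodd h1)
    rw [hLa] at h2
    have h3 : ∀ k, δ (u k) = if k = j then 1 else 0 := by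
      intro k
      rw [hδ]
      simp only
      have h4 : u k ≠ -u j := by
        intro h5
        apply h.opp k j
        have h6 : ((u k : ZMod D)) + u j = 0 := by
          rw [h5, Units.val_neg, neg_add_cancel]
        rw [hu] at h6
        simp only [ZMod.coe_unitOfCoprime] at h6
        rw [← ZMod.natCast_eq_zero_iff]
        push_cast
        exact h6
      rw [if_neg h4, sub_zero]
      by_cases hk : k = j
      · rw [hk, if_pos rfl, if_pos rfl]
      · rw [if_neg hk, if_neg]
        intro h5
        apply hk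
        apply h.inj
        have h6 : ((u k : ZMod D)) = u j := by rw [h5]
        rw [hu] at h6
        simp only [ZMod.coe_unitOfCoprime] at h6
        exact (ZMod.natCast_eq_natCast_iff _ _ _).1 h6
    rw [sum_congr rfl fun k _ => by rw [h3 k]] at h2
    simp only [ite_smul, one_smul, zero_smul] at h2
    rw [sum_ite_eq' univ j, if_pos (mem_univ _)] at h2
    exact h2
  -- conclusion
  have hQ0 : Q ∅ = 0 := by
    have h1 := hsume
    rw [sum_eq_zero fun j _ => he0 j] at h1
    have h2 : (1 / 2 : ℚ) • ((2 : ℚ) • Q ∅) = 0 := by rw [← h1, smul_zero]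
    rw [smul_smul] at h2
    norm_num at h2
    exact h2
  rw [hQ] at hQ0
  simp only at hQ0
  rw [hπ, Submodule.mkQ_apply, Submodule.Quotient.mk_eq_zero] at hQ0
  have hfl : fl D t ∅ = t := by
    funext j
    unfold fl
    rw [if_neg (notMem_empty j)]
  have hw0 := hw ∅
  rw [hfl] at hw0
  have e1 := hv.uniq hU h hw0 i
  have e3 : Real.log (v i) - Real.log Real.pi / 2 = (Real.log (v i) - Real.log (w ∅ i)) +
      (Real.log (w ∅ i) - Real.log Real.pi / 2) := by ring
  rw [e3]
  exact (WG D).add_mem (alg_mem e1) hQ0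

end

end Pool.Agent.RCM
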