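import Pool.Agent.RCM.FSp
import Pool.Agent.RCM.Ifc

/-!
All levels, block COMB, part 3: functions on a cube with vanishing mixed second differences; flips of
CM types; the period of a Fermat type.
-/

set_option autoImplicit false

namespace Pool.Agent.RCM

open Finset Pool.Agent.Helper99.Rohr Pool.Agent.ROH Pool.Agent.ROH8 Pool.Agent.RHK

section cube

variable {ι : Type*} [DecidableEq ι] {A : Type*} [AddCommGroup A]

theorem cube_step (i : ι) (Q : Finset ι → A)
    (h : ∀ S a b, a ∉ S → b ∉ S → a ≠ b → i ∉ S → i ≠ a → i ≠ b →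
      Q S + Q (insert a (insert b S)) = Q (insert a S) + Q (insert b S)) :
    ∀ S : Finset ι, i ∉ S → ∀ a, a ∉ S → i ≠ a → Q (insert a S) - Q S = Q {a} - Q ∅ := by
  intro S
  induction S using Finset.induction_on with
  | empty =>
    intro _ a _ _
    rw [insert_empty_eq]
  | insert b S hb ih =>
    intro hi a ha hia
    rw [mem_insert, not_or] at hi ha
    have h1 := ih hi.2 a ha.2 hia
    have h2 := h S a b ha.2 hb ha.1 hi.2 hia hi.1
    rw [← h1]
    have h3 : Q (insert a (insert b S)) = Q (insert a S) + Q (insert b S) - Q S := by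
      rw [← h2]
      abel
    rw [h3]
    abel

theorem cube (i : ι) (Q : Finset ι → A)
    (h : ∀ S a b, a ∉ S → b ∉ S → a ≠ b → i ∉ S → i ≠ a → i ≠ b →
      Q S + Q (insert a (insert b S)) = Q (insert a S) + Q (insert b S)) :
    ∀ S : Finset ι, i ∉ S → Q S = Q ∅ + ∑ a ∈ S, (Q {a} - Q ∅) := by
  intro S
  induction S using Finset.induction_on with
  | empty =>
    intro _
    rw [sum_empty, add_zero]
  | insert b S hb ih =>
    intro hi
    rw [mem_insert, not_or] at hi
    have h1 := ih hi.2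
    have h2 := cube_step i Q h S hi.2 b hb hi.1
    rw [sum_insert hb, ← h2, add_left_comm, ← h1]
    abel

end cube

section flip

variable {D g : ℕ} {t : Fin g → ℕ}

/-- the flip of a type at the places of `S` -/
def fl (D : ℕ) (t : Fin g → ℕ) (S : Finset (Fin g)) : Fin g → ℕ := fun i =>
  if i ∈ S then (D - 1) * t i else t i

theorem dvd_fl (hD : 0 < D) (n : ℕ) : D ∣ (D - 1) * n + n := by
  refine ⟨n, ?_⟩
  obtain ⟨d, rfl⟩ : ∃ d, D = d + 1 := ⟨D - 1, by omega⟩
  rw [Nat.add_sub_cancel]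
  ring

theorem modEq_fl (hD : 0 < D) {a b : ℕ} (h : (D - 1) * a ≡ (D - 1) * b [MOD D]) : a ≡ b [MOD D] := by
  have h1 : (D - 1) * a + (a + b) ≡ (D - 1) * b + (a + b) [MOD D] := h.add_right _
  have h2 : (D - 1) * a + (a + b) ≡ b [MOD D] := by
    have h3 : (D - 1) * a + a ≡ 0 [MOD D] := (Nat.modEq_zero_iff_dvd).2 (dvd_fl hD a)
    have h4 := h3.add_right b
    rwa [zero_add, add_assoc] at h4
  have h3 : (D - 1) * b + (a + b) ≡ a [MOD D] := by
    have h3 : (D - 1) * b + b ≡ 0 [MOD D] := (Nat.modEq_zero_iff_dvd).2 (dvd_fl hD b)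
    have h4 := h3.add_right a
    rwa [zero_add, add_assoc, add_comm b a] at h4
  exact (h3.symm.trans (h1.symm.trans h2))

theorem CM.fl (h : CM D g t) (S : Finset (Fin g)) : CM D g (fl D t S) := by
  have hD := h.pos
  have key : ∀ a b : ℕ, (D - 1) * a ≡ b [MOD D] → D ∣ a + b := by
    intro a b hab
    have h1 : (D - 1) * a + a ≡ b + a [MOD D] := hab.add_right _
    have h2 := ((Nat.modEq_zero_iff_dvd).2 (dvd_fl hD a)).symm.trans h1
    rw [add_comm]
    exact (Nat.modEq_zero_iff_dvd).1 h2.symm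
  have key2 : ∀ a b : ℕ, D ∣ (D - 1) * a + b → a ≡ b [MOD D] := by
    intro a b hab
    have h1 : (D - 1) * a + b ≡ (D - 1) * a + a [MOD D] :=
      ((Nat.modEq_zero_iff_dvd).2 hab).trans ((Nat.modEq_zero_iff_dvd).2 (dvd_fl hD a)).symm
    exact (Nat.ModEq.add_left_cancel' _ h1).symm
  refine ⟨⟨hD, ?_, h.card, ?_⟩, h.two, ?_, ?_⟩
  · intro i
    unfold RCM.fl
    split_ifs
    · refine Nat.Coprime.mul_left ?_ (h.cop i)
      have : D = (D - 1) + 1 := by omega
      rw [Nat.coprime_comm, this, Nat.add_sub_cancel]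
      simp
    · exact h.cop i
  · intro s hs
    obtain ⟨i, hi⟩ := h.surj s hs
    refine ⟨i, ?_⟩
    unfold RCM.fl
    by_cases hiS : i ∈ S
    · rw [if_pos hiS]
      rcases hi with h1 | h1
      · right
        have h2 : s + (D - 1) * t i ≡ t i + (D - 1) * t i [MOD D] := h1.add_right _
        rw [add_comm (t i)] at h2
        exact (Nat.modEq_zero_iff_dvd).1 (h2.trans ((Nat.modEq_zero_iff_dvd).2 (dvd_fl hD (t i))))
      · left
        have h2 : s + t i ≡ (D - 1) * t i + t i [MOD D] :=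
          ((Nat.modEq_zero_iff_dvd).2 h1).trans ((Nat.modEq_zero_iff_dvd).2 (dvd_fl hD (t i))).symm
        exact Nat.ModEq.add_right_cancel' _ h2
    · rw [if_neg hiS]
      exact hi
  · intro i j hij
    unfold RCM.fl at hij
    split_ifs at hij with h1 h2 h2
    · exact h.inj i j (modEq_fl hD hij)
    · exact absurd (key _ _ hij) (h.opp i j)
    · exact absurd (key _ _ hij.symm) (h.opp j i)
    · exact h.inj i j hij
  · intro i j hij
    unfold RCM.fl at hij
    split_ifs at hij with h1 h2 h2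
    · have h3 := key2 _ _ hij
      -- `t i ≡ (D - 1) t j`
      exact h.opp j i (key _ _ h3.symm)
    · have h3 := key2 _ _ hij
      have h4 := h.inj i j h3
      rw [h4] at h1
      exact h2 h1
    · rw [add_comm] at hij
      have h3 := key2 _ _ hij
      have h4 := h.inj j i h3
      rw [h4] at h2
      exact h1 h2
    · exact h.opp i j hij

end flip

section types

variable {D a b : ℕ}

theorem inType_congr {s s' : ℕ} (h : s ≡ s' [MOD D]) : InType D a b s ↔ InType D a b s' := by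
  unfold InType
  have h1 : (s * a) % D = (s' * a) % D := h.mul_right a
  have h2 : (s * b) % D = (s' * b) % D := h.mul_right b
  have h3 : Nat.Coprime s D ↔ Nat.Coprime s' D := by
    unfold Nat.Coprime
    rw [h.gcd_eq]
  rw [h1, h2, h3]

/-- the complementary type -/
theorem inType_compl (hD : 2 < D) (hb : 0 < b) (hb1 : b + 1 < D) {s : ℕ} (hs : s.Coprime D) :
    InType D (D - 1) (D - b) s ↔ ¬ InType D 1 b s := by
  have hD0 : 0 < D := by omega
  have n1 : ¬ D ∣ 1 * s := by
    intro h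
    rw [one_mul] at h
    have := Nat.Coprime.eq_one_of_dvd hs.symm h
    omega
  have n2 : ¬ D ∣ b * s := by
    intro h
    have := (Nat.Coprime.dvd_mul_right hs.symm).1 h
    exact absurd (Nat.le_of_dvd hb this) (by omega)
  have e1 := mod_neg (s := 1) (s' := D - 1) (a := s) hD0 ⟨1, by omega⟩ n1
  have e2 := mod_neg (s := b) (s' := D - b) (a := s) hD0 ⟨1, by omega⟩ n2
  have e3 : (1 * s) % D + (b * s) % D ≠ D := by
    intro h
    have h1 : ((1 + b) * s) % D = 0 := by
      rw [add_mul, Nat.add_mod, h, Nat.mod_self]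
    have h2 := (Nat.Coprime.dvd_mul_right hs.symm).1 (Nat.dvd_of_mod_eq_zero h1)
    exact absurd (Nat.le_of_dvd (by omega) h2) (by omega)
  have l1 := Nat.mod_lt (1 * s) hD0
  have l2 := Nat.mod_lt (b * s) hD0
  unfold InType
  rw [mul_comm s (D - 1), mul_comm s (D - b), mul_comm s 1, mul_comm s b, e1, e2]
  constructor
  · rintro ⟨-, h2⟩ ⟨-, h3⟩
    omega
  · intro h2
    refine ⟨hs, ?_⟩
    have : ¬ (D < (1 * s) % D + (b * s) % D) := fun h3 => h2 ⟨hs, h3⟩
    omega

/-- the span of the logarithms of the normalised gamma values modulo logarithms of algebraic numbers -/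
noncomputable def WG (D : ℕ) : Submodule ℚ ℝ :=
  LogAlgQ ⊔ Submodule.span ℚ {x | ∃ j : ℕ, 0 < j ∧ j < D ∧ x = lg ((j : ℚ) / D)}

theorem lg_mem {j : ℕ} (h0 : 0 < j) (h1 : j < D) : lg ((j : ℚ) / D) ∈ WG D :=
  Submodule.mem_sup_right (Submodule.subset_span ⟨j, h0, h1, rfl⟩)

theorem alg_mem {x : ℝ} (h : x ∈ LogAlg) : x ∈ WG D := Submodule.mem_sup_left h

/-- the period of a Fermat type -/
theorem beta_mem (hD : 2 < D) {s : ℕ} (ha : ¬ D ∣ a) (hb : ¬ D ∣ b) (hs : InType D a b s) {α v : ℝ}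
    (hα : IsAlgebraic ℚ α) (hα0 : α ≠ 0)
    (hv : v = α * (Real.Gamma (1 - ((s * a) % D : ℕ) / (D : ℝ)) *
      Real.Gamma (1 - ((s * b) % D : ℕ) / (D : ℝ)) /
      Real.Gamma (2 - ((s * a) % D : ℕ) / (D : ℝ) - ((s * b) % D : ℕ) / (D : ℝ)))) :
    Real.log v - Real.log Real.pi / 2 ∈ WG D := by
  have hDR : (0 : ℝ) < D := by
    have : 0 < D := by omega
    exact_mod_cast this
  have hD0 : 0 < D := by omega
  have na := not_dvd_mul hs.1 ha
  have nb := not_dvd_mul hs.1 hb
  obtain ⟨A, hA⟩ : ∃ A, A = s * a % D := ⟨_, rfl⟩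
  obtain ⟨B, hB⟩ : ∃ B, B = s * b % D := ⟨_, rfl⟩
  have hA0 : 0 < A := by
    rw [hA]; exact Nat.pos_of_ne_zero fun h0 => na (Nat.dvd_of_mod_eq_zero h0)
  have hB0 : 0 < B := by
    rw [hB]; exact Nat.pos_of_ne_zero fun h0 => nb (Nat.dvd_of_mod_eq_zero h0)
  have hAD : A < D := by rw [hA]; exact Nat.mod_lt _ hD0
  have hBD : B < D := by rw [hB]; exact Nat.mod_lt _ hD0
  have hAB : D < A + B := by rw [hA, hB]; exact hs.2
  rw [← hA, ← hB] at hv
  have e1 : (1 : ℝ) - (A : ℕ) / (D : ℝ) = ((D - A : ℕ) : ℝ) / D := by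
    rw [Nat.cast_sub hAD.le]; field_simp
  have e2 : (1 : ℝ) - (B : ℕ) / (D : ℝ) = ((D - B : ℕ) : ℝ) / D := by
    rw [Nat.cast_sub hBD.le]; field_simp
  have e3 : (2 : ℝ) - (A : ℕ) / (D : ℝ) - (B : ℕ) / (D : ℝ) = ((2 * D - A - B : ℕ) : ℝ) / D := by
    rw [Nat.cast_sub (by omega), Nat.cast_sub (by omega)]
    push_cast
    field_simp
  rw [e1, e2, e3] at hv
  have gpos : ∀ j : ℕ, 0 < j → 0 < Real.Gamma ((j : ℝ) / (D : ℝ)) := by
    intro j hj
    have : (0 : ℝ) < (j : ℝ) := by exact_mod_cast hj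
    exact Real.Gamma_pos_of_pos (by positivity)
  have g1 := gpos (D - A) (by omega)
  have g2 := gpos (D - B) (by omega)
  have g3 := gpos (2 * D - A - B) (by omega)
  have hlog : Real.log v = Real.log α + (Real.log (Real.Gamma (((D - A : ℕ) : ℝ) / D)) +
      Real.log (Real.Gamma (((D - B : ℕ) : ℝ) / D)) -
      Real.log (Real.Gamma (((2 * D - A - B : ℕ) : ℝ) / D))) := by
    rw [hv, Real.log_mul hα0 (div_pos (mul_pos g1 g2) g3).ne',
      Real.log_div (mul_pos g1 g2).ne' g3.ne', Real.log_mul g1.ne' g2.ne']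
  have hlg : ∀ j : ℕ, lg ((j : ℚ) / D) = Real.log (Real.Gamma ((j : ℝ) / D)) -
      Real.log Real.pi / 2 := by
    intro j
    unfold lg
    push_cast
    rfl
  have hα' : Real.log α ∈ LogAlg := by
    rw [mem_LogAlg]
    rcases lt_or_gt_of_ne hα0 with h | h
    · rw [← Real.log_neg_eq_log, Real.exp_log (neg_pos.2 h)]
      exact hα.neg
    · rw [Real.exp_log h]
      exact hα
  have h1 : Real.log v - Real.log Real.pi / 2 = Real.log α + lg (((D - A : ℕ) : ℚ) / D) +
      lg (((D - B : ℕ) : ℚ) / D) - lg (((2 * D - A - B : ℕ) : ℚ) / D) := by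
    rw [hlog, hlg, hlg, hlg]
    ring
  rw [h1]
  exact (WG D).sub_mem ((WG D).add_mem ((WG D).add_mem (alg_mem hα')
    (lg_mem (by omega) (by omega))) (lg_mem (by omega) (by omega))) (lg_mem (by omega) (by omega))

end types

end Pool.Agent.RCM
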