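import Pool.Agent.RCM.Chud
import Pool.Agent.RCM.LinI
import Pool.Agent.RHK.ArFin
import Pool.Agent.RHT.ThF

/-!
All levels: draft of the final hand-in (MP_c2409d_nt), with the three blocks TH, U, R4 as
hypotheses.
-/

open Pool.Agent.RHK hiding ClassLevel Ind
open Pool.Agent.RCM

namespace Pool.Agent.RCM.FDraft

/-- the gamma product is an algebraic multiple of `π ^ (r / 2)` -/
def GammaMult {r : ℕ} (a : Fin r → ℚ) : Prop :=
  ∃ α : ℝ, IsAlgebraic ℚ α ∧ ∏ i, Real.Gamma ((a i : ℚ) : ℝ) = α * Real.pi ^ ((r : ℝ) / 2)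

/-- the fractional part identity for the common denominator `M` -/
def FracId (M : ℕ) {r : ℕ} (a : Fin r → ℚ) : Prop :=
  ∀ m : ℕ, 1 ≤ m → m ≤ M → Nat.Coprime m M → ∑ i, Int.fract ((m : ℚ) * a i) = (r : ℚ) / 2

/-- `M` is a common denominator of the `a i` -/
def ComDen (M : ℕ) {r : ℕ} (a : Fin r → ℚ) : Prop := 0 < M ∧ ∀ i, ∃ z : ℤ, (M : ℚ) * a i = z

/-- no `a i` is an integer -/
def NonInt {r : ℕ} (a : Fin r → ℚ) : Prop := ∀ (i : Fin r) (z : ℤ), a i ≠ z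

/-- the number of integers among the `a i` -/
def numInt {r : ℕ} (a : Fin r → ℚ) : ℕ :=
  (Finset.univ.filter fun i => Int.fract (a i) = 0).card

/-- the class function `m ↦ {m x} - 1 / 2` on the integers `m` prime to `M` -/
def classFn (M : ℕ) (x : ℚ) : {m : ℕ // m.Coprime M} → ℚ :=
  fun m => Int.fract (((m : ℕ) : ℚ) * x) - 1 / 2

theorem result (hTH : THForm) (hU : UForm) (hR : R4Form) :
    (∀ (k : ℕ) (x : Fin k → ℚ) (M : ℕ), ComDen M x → NonInt x →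
      (AlgebraicIndependent ℚ (fun i => Real.Gamma (x i) / Real.sqrt Real.pi) ↔
        LinearIndependent ℚ (fun i => classFn M (x i)))) ∧
    (∀ D : ℕ, 3 ≤ D → ∃ J : Finset ℕ, (∀ j ∈ J, 0 < j ∧ j < D) ∧ 2 * J.card = D.totient ∧
      AlgebraicIndependent ℚ (fun j : J => Real.Gamma ((j : ℕ) / D) / Real.sqrt Real.pi)) ∧
    (∀ (r : ℕ) (a : Fin r → ℚ) (M : ℕ), ComDen M a → NonInt a → (GammaMult a ↔ FracId M a)) ∧
    ∃ (f : ℕ) (U : ℕ → ℚ), 5 ≤ f ∧ f % 4 ≠ 2 ∧ (∀ m m' : ℕ, m ≡ m' [MOD f] → U m = U m') ∧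
      (∃ m : ℕ, m.Coprime f ∧ U m ≠ 0) ∧
      ∀ (r : ℕ) (a : Fin r → ℚ) (M : ℕ), ComDen M a → (∀ (i : Fin r) (n : ℕ), a i ≠ -(n : ℚ)) →
        ¬ (GammaMult a ↔ FracId M a) → f ∣ M ∧ 0 < numInt a ∧ ∀ m : ℕ, m.Coprime M →
          ∑ i, Int.fract ((m : ℚ) * a i) = ((r : ℚ) - numInt a) / 2 + numInt a * U m := by
  have hT : TrAll := fun D hD k θ hx => trdeg_all RHK.arithForm hTH hU hR RHT.thetaForm hD k θ hx
  have hI : ∀ D : ℕ, 2 < D → ∃ J : Finset ℕ, RHK.Ind D J ∧ D.totient ≤ 2 * J.card :=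
    fun D hD => ind_all RHK.arithForm hTH hU hR RHT.thetaForm hD
  refine ⟨fun k x M hM hni => lang_mod_pi hT x hM.1 hM.2 hni, fun D hD => ?_,
    fun r a M hM hni => nonintegral_all hI a M hM.1 hM.2 hni, ?_⟩
  · obtain ⟨J, hJ, hc⟩ := hI D hD
    exact ⟨J, hJ.mem, le_antisymm hJ.card_le hc, hJ.ind⟩
  · obtain ⟨f, U, hf, hf4, hU1, hU0, hall⟩ := line_fin hI
    refine ⟨f, U, hf, hf4, hU1, hU0, fun r a M hM hnp hne => ?_⟩
    obtain ⟨h1, h2, h3, -⟩ := hall r a M ⟨hM.1, hM.2, hnp, hne⟩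
    exact ⟨h1, h2, h3⟩

end Pool.Agent.RCM.FDraft
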