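import Pool.Agent.RCM.SawSpan
import Pool.Agent.RHK.FBook

/-!
All levels, block COMB, part 2: the functions of the Fermat types `(1, b)` span the odd functions.
-/

set_option autoImplicit false

namespace Pool.Agent.RCM

open Finset Pool.Agent.Helper99.Rohr Pool.Agent.ROH Pool.Agent.ROH8 Pool.Agent.RHK

open Classical in
/-- the function of the Fermat type `(1, b)` on the units: `1/2` on the type, `-1/2` outside -/
noncomputable def tyF (D b : ℕ) : (ZMod D)ˣ → ℚ := fun t =>
  if InType D 1 b (t : ZMod D).val then 1 / 2 else -1 / 2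

theorem tyF_eq {D b : ℕ} (hD : 2 < D) (hb : 0 < b) (hb1 : b + 1 < D) :
    tyF D b = Sf D (((1 : ℕ) : ℚ) / D) + Sf D ((b : ℚ) / D) - Sf D (((b + 1 : ℕ) : ℚ) / D) := by
  classical
  have : NeZero D := ⟨by omega⟩
  have hD0 : 0 < D := by omega
  have hDq : (0 : ℚ) < D := by exact_mod_cast hD0
  funext t
  have hc := ZMod.val_coe_unit_coprime t
  set s := (t : ZMod D).val with hs
  have hnd : ∀ a : ℕ, 0 < a → a < D → 0 < s * a % D := by
    intro a h0 h1
    apply Nat.pos_of_ne_zero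
    intro h2
    have h3 := (Nat.Coprime.dvd_mul_left hc.symm).1 (Nat.dvd_of_mod_eq_zero h2)
    exact absurd (Nat.le_of_dvd h0 h3) (by omega)
  have h1 := hnd 1 one_pos (by omega)
  have h2 := hnd b hb (by omega)
  have h3 := hnd (b + 1) (by omega) hb1
  have l1 := Nat.mod_lt (s * 1) hD0
  have l2 := Nat.mod_lt (s * b) hD0
  have l3 := Nat.mod_lt (s * (b + 1)) hD0
  have hsum : (s * (b + 1)) % D = ((s * 1) % D + (s * b) % D) % D := by
    rw [← Nat.add_mod]
    congr 1
    ring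
  simp only [tyF, Pi.sub_apply, Pi.add_apply, Sf]
  rw [← hs, saw_div hD0, saw_div hD0, saw_div hD0]
  by_cases h4 : D < (s * 1) % D + (s * b) % D
  · rw [if_pos ⟨hc, h4⟩]
    have h5 : (s * (b + 1)) % D + D = (s * 1) % D + (s * b) % D := by
      rw [hsum, Nat.mod_eq_sub_mod (by omega), Nat.mod_eq_of_lt (by omega)]
      omega
    have h6 : ((((s * (b + 1)) % D : ℕ) : ℚ)) + D = ((s * 1) % D : ℕ) + ((s * b) % D : ℕ) := by
      exact_mod_cast h5
    field_simp
    linarith
  · rw [if_neg fun h => h4 h.2]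
    have h4' : (s * 1) % D + (s * b) % D ≠ D := by
      intro h5
      rw [h5, Nat.mod_self] at hsum
      omega
    have h5 : (s * (b + 1)) % D = (s * 1) % D + (s * b) % D := by
      rw [hsum, Nat.mod_eq_of_lt (by omega)]
    have h6 : ((((s * (b + 1)) % D : ℕ) : ℚ)) = ((s * 1) % D : ℕ) + ((s * b) % D : ℕ) := by
      exact_mod_cast h5
    field_simp
    linarith

/-- **a submodule which contains the functions of the Fermat types `(1, b)` contains all odd
functions** -/
theorem fermat_span {D : ℕ} (hD : 2 < D) {U : Submodule ℚ ((ZMod D)ˣ → ℚ)}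
    (hU : ∀ b : ℕ, 0 < b → b + 1 < D → tyF D b ∈ U) : oddW D ≤ U := by
  have : NeZero D := ⟨by omega⟩
  have hDq : (D : ℚ) ≠ 0 := by
    have : D ≠ 0 := by omega
    exact_mod_cast this
  have h1 : ∀ j : ℕ, j + 1 < D → Sf D (((j + 1 : ℕ) : ℚ) / D) -
      ((j + 1 : ℕ) : ℚ) • Sf D (((1 : ℕ) : ℚ) / D) ∈ U := by
    intro j
    induction j with
    | zero =>
      intro _
      simp only [zero_add, Nat.cast_one, one_smul, sub_self]
      exact U.zero_mem
    | succ j ih =>
      intro hj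
      have h2 := ih (by omega)
      have h3 := hU (j + 1) (by omega) hj
      rw [tyF_eq hD (by omega) hj] at h3
      have h4 := U.sub_mem h2 h3
      have h5 : Sf D (((j + 1 + 1 : ℕ) : ℚ) / D) - ((j + 1 + 1 : ℕ) : ℚ) •
          Sf D (((1 : ℕ) : ℚ) / D) = Sf D (((j + 1 : ℕ) : ℚ) / D) -
          ((j + 1 : ℕ) : ℚ) • Sf D (((1 : ℕ) : ℚ) / D) -
          (Sf D (((1 : ℕ) : ℚ) / D) + Sf D (((j + 1 : ℕ) : ℚ) / D) -
            Sf D (((j + 1 + 1 : ℕ) : ℚ) / D)) := by
        push_cast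
        module
      rw [h5]
      exact h4
  have h2 := h1 (D - 2) (by omega)
  have hneg : Sf D (((D - 2 + 1 : ℕ) : ℚ) / D) = -Sf D (((1 : ℕ) : ℚ) / D) := by
    funext t
    simp only [Pi.neg_apply, Sf]
    have hc := ZMod.val_coe_unit_coprime t
    have hD0 : 0 < D := by omega
    rw [saw_div hD0, saw_div hD0]
    have h3 : ((t : ZMod D).val * (D - 2 + 1)) % D = D - ((t : ZMod D).val * 1) % D := by
      have h4 := mod_neg (s := 1) (s' := D - 2 + 1) (a := (t : ZMod D).val) hD0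
        (by exact ⟨1, by omega⟩) (by
          rw [one_mul]
          intro h5
          have := Nat.Coprime.eq_one_of_dvd hc.symm h5
          omega)
      rw [mul_comm, h4, one_mul, mul_one]
    have h5 := Nat.mod_lt ((t : ZMod D).val * 1) hD0
    rw [h3, Nat.cast_sub h5.le]
    field_simp
    ring
  rw [hneg] at h2
  have h3 : Sf D (((1 : ℕ) : ℚ) / D) ∈ U := by
    have h4 : -Sf D (((1 : ℕ) : ℚ) / D) - ((D - 2 + 1 : ℕ) : ℚ) • Sf D (((1 : ℕ) : ℚ) / D) =
        (-(D : ℚ)) • Sf D (((1 : ℕ) : ℚ) / D) := by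
      have h5 : ((D - 2 + 1 : ℕ) : ℚ) = D - 1 := by
        have : D - 2 + 1 + 1 = D := by omega
        have h6 : ((D - 2 + 1 : ℕ) : ℚ) + 1 = D := by exact_mod_cast this
        linarith
      rw [h5]
      module
    rw [h4] at h2
    have h6 := U.smul_mem (-(D : ℚ))⁻¹ h2
    rwa [smul_smul, inv_mul_cancel₀ (neg_ne_zero.2 hDq), one_smul] at h6
  rw [← saw_span hD, Submodule.span_le]
  rintro _ ⟨j, h0, hj, rfl⟩
  obtain ⟨k, rfl⟩ : ∃ k, j = k + 1 := ⟨j - 1, by omega⟩
  have h4 := U.add_mem (h1 k hj) (U.smul_mem ((k + 1 : ℕ) : ℚ) h3)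
  rwa [sub_add_cancel] at h4

end Pool.Agent.RCM
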