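import Pool.Agent.RHK.FSpan

/-!
All levels, block COMB, part 1: the sawtooth functions of level `D` span the odd functions on the units
modulo `D` (nonvanishing of the generalised Bernoulli numbers of odd characters).
-/

set_option autoImplicit false

namespace Pool.Agent.RCM

open Finset Pool.Agent.Helper99.Rohr Pool.Agent.ROH Pool.Agent.ROH8 Pool.Agent.RHK

section

variable {D : ℕ} [NeZero D]

/-- Fourier coefficients on the units -/
noncomputable def hat (ψ : (ZMod D)ˣ → ℂ) (χ : DirichletCharacter ℂ D) : ℂ :=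
  ∑ t : (ZMod D)ˣ, ψ t * χ ((t⁻¹ : (ZMod D)ˣ) : ZMod D)

theorem sum_hat (ψ : (ZMod D)ˣ → ℂ) (s : (ZMod D)ˣ) :
    ∑ χ : DirichletCharacter ℂ D, hat ψ χ * χ (s : ZMod D) = (D.totient : ℂ) * ψ s := by
  unfold hat
  simp_rw [sum_mul]
  rw [sum_comm]
  have h1 : ∀ t : (ZMod D)ˣ, ∑ χ : DirichletCharacter ℂ D,
      ψ t * χ ((t⁻¹ : (ZMod D)ˣ) : ZMod D) * χ (s : ZMod D) =
      if t = s then (D.totient : ℂ) * ψ s else 0 := by
    intro t
    have h2 : ∀ χ : DirichletCharacter ℂ D, ψ t * χ ((t⁻¹ : (ZMod D)ˣ) : ZMod D) * χ (s : ZMod D) =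
        ψ t * χ ((t⁻¹ * s : (ZMod D)ˣ) : ZMod D) := by
      intro χ
      rw [Units.val_mul, map_mul, mul_assoc]
    rw [sum_congr rfl fun χ _ => h2 χ, ← mul_sum, DirichletCharacter.sum_characters_eq]
    by_cases ht : t = s
    · subst ht
      simp [mul_comm]
    · have : ((t⁻¹ * s : (ZMod D)ˣ) : ZMod D) ≠ 1 := fun h => by
        have h3 : t⁻¹ * s = 1 := Units.ext h
        exact ht (inv_mul_eq_one.1 h3)
      rw [if_neg this, if_neg ht, mul_zero]
  rw [sum_congr rfl fun t _ => h1 t, sum_ite_eq' univ s, if_pos (mem_univ _)]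

theorem hat_even {ψ : (ZMod D)ˣ → ℂ} (hodd : ∀ t, ψ (-t) = -ψ t) {χ : DirichletCharacter ℂ D}
    (hχ : χ.Even) : hat ψ χ = 0 := by
  have h1 : hat ψ χ = -hat ψ χ := by
    conv_lhs => unfold hat
    rw [← Equiv.sum_comp (Equiv.neg (ZMod D)ˣ)]
    unfold hat
    rw [← sum_neg_distrib]
    refine sum_congr rfl fun t _ => ?_
    have h2 : (((-t)⁻¹ : (ZMod D)ˣ) : ZMod D) = (-1) * ((t⁻¹ : (ZMod D)ˣ) : ZMod D) := by
      rw [inv_neg, Units.val_neg]
      ring
    rw [Equiv.neg_apply, hodd, h2, map_mul, hχ, one_mul]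
    ring
  exact self_eq_neg.1 h1

/-- an odd function orthogonal to all sawtooth functions vanishes -/
theorem odd_orth {ψ : (ZMod D)ˣ → ℂ} (hodd : ∀ t, ψ (-t) = -ψ t)
    (h : ∀ j : ZMod D, ∑ t : (ZMod D)ˣ, ψ t * lft (N := D) (saw 1) (t * j) = 0) : ∀ t, ψ t = 0 := by
  have h0 : ∀ χ : DirichletCharacter ℂ D, hat ψ χ = 0 := by
    intro χ
    rcases χ.even_or_odd with he | ho
    · exact hat_even hodd he
    · obtain ⟨M, hM⟩ := χ.conductor_dvd_level
      have hM' : M * χ.conductor = D := by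
        conv_rhs => rw [hM]
        ring
      have hz := saw_prim ho hM'
      -- the convolution
      have h1 : hat ψ χ * iso χ (lft (N := D) (saw 1)) M = 0 := by
        unfold hat iso
        rw [sum_mul]
        have h2 : ∀ t : (ZMod D)ˣ, ψ t * χ ((t⁻¹ : (ZMod D)ˣ) : ZMod D) *
            ∑ s : (ZMod D)ˣ, χ (s : ZMod D) * lft (N := D) (saw 1) (s * (M : ZMod D)) =
            ∑ u : (ZMod D)ˣ, χ (u : ZMod D) *
              (ψ t * lft (N := D) (saw 1) (t * (u * (M : ZMod D)))) := by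
          intro t
          rw [mul_sum, ← Equiv.sum_comp (Equiv.mulLeft t)]
          refine sum_congr rfl fun u _ => ?_
          have h3 : χ ((t⁻¹ : (ZMod D)ˣ) : ZMod D) * χ (((t * u : (ZMod D)ˣ)) : ZMod D) =
              χ (u : ZMod D) := by
            rw [← map_mul, ← Units.val_mul, inv_mul_cancel_left]
          rw [Equiv.coe_mulLeft, ← h3, Units.val_mul, mul_assoc (t : ZMod D)]
          ring
        rw [sum_congr rfl fun t _ => h2 t, sum_comm]
        refine sum_eq_zero fun u _ => ?_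
        rw [← mul_sum, h, mul_zero]
      exact (mul_eq_zero.1 h1).resolve_right hz
  intro s
  have h1 := sum_hat ψ s
  rw [sum_eq_zero fun χ _ => by rw [h0 χ, zero_mul]] at h1
  have h2 : (D.totient : ℂ) ≠ 0 := by
    have : 0 < D.totient := Nat.totient_pos.2 (Nat.pos_of_ne_zero (NeZero.ne D))
    exact_mod_cast this.ne'
  exact (mul_eq_zero.1 h1.symm).resolve_left h2

theorem lft_Sf (t : (ZMod D)ˣ) {j : ℕ} (h0 : 0 < j) (h1 : j < D) :
    lft (N := D) (saw 1) ((t : ZMod D) * (j : ZMod D)) = ((Sf D ((j : ℚ) / D) t : ℚ) : ℂ) := by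
  have hj : ((j : ZMod D)).val = j := ZMod.val_natCast_of_lt h1
  have hj0 : (j : ZMod D) ≠ 0 := by
    intro h
    rw [h, ZMod.val_zero] at hj
    omega
  have h3 : (t : ZMod D) * (j : ZMod D) ≠ 0 := by
    intro h4
    apply hj0
    have h5 : (((t⁻¹ : (ZMod D)ˣ) : ZMod D)) * ((t : ZMod D) * (j : ZMod D)) = 0 := by
      rw [h4, mul_zero]
    rwa [← mul_assoc, Units.inv_mul, one_mul] at h5
  rw [lft_saw h3]
  unfold Sf
  rw [saw_div (Nat.pos_of_ne_zero (NeZero.ne D)), ZMod.val_mul, hj]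
  push_cast
  ring

end

/-- **the sawtooth functions span the odd functions** -/
theorem saw_span {D : ℕ} (hD : 2 < D) :
    Submodule.span ℚ {f | ∃ j : ℕ, 0 < j ∧ j < D ∧ f = Sf D ((j : ℚ) / D)} = oddW D := by
  classical
  have : NeZero D := ⟨by omega⟩
  apply le_antisymm
  · rw [Submodule.span_le]
    rintro _ ⟨j, h0, h1, rfl⟩
    exact Sf_odd (pt_div h0 h1)
  · by_contra hcon
    rw [SetLike.not_le_iff_exists] at hcon
    obtain ⟨f, hf, hfS⟩ := hcon
    obtain ⟨φ, hφf, hφS⟩ := Submodule.exists_dual_map_eq_bot_of_notMem hfS inferInstance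
    -- the odd part of the functional
    set e : (ZMod D)ˣ → ((ZMod D)ˣ → ℚ) := fun t => Pi.single t 1 with he
    have hexp : ∀ k : (ZMod D)ˣ → ℚ, φ k = ∑ t, k t * φ (e t) := by
      intro k
      conv_lhs => rw [← Finset.univ_sum_single k]
      rw [map_sum]
      refine sum_congr rfl fun t _ => ?_
      have : (Pi.single t (k t) : (ZMod D)ˣ → ℚ) = k t • e t := by
        rw [he]
        simp only
        rw [← Pi.single_smul, smul_eq_mul, mul_one]
      rw [this, map_smul, smul_eq_mul]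
    set ψ : (ZMod D)ˣ → ℚ := fun t => φ (e t) - φ (e (-t)) with hψ
    have hψodd : ∀ t, ψ (-t) = -ψ t := by
      intro t
      rw [hψ]
      simp only
      rw [neg_neg]
      ring
    have hpair : ∀ k ∈ oddW D, ∑ t, ψ t * k t = 2 * φ k := by
      intro k hk
      rw [hψ]
      simp only
      have h1 : ∑ t, (φ (e t) - φ (e (-t))) * k t = ∑ t, k t * φ (e t) - ∑ t, k t * φ (e (-t)) := by
        rw [← sum_sub_distrib]
        exact sum_congr rfl fun t _ => by ring
      have h2 : ∑ t, k t * φ (e (-t)) = -∑ t, k t * φ (e t) := by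
        rw [← Equiv.sum_comp (Equiv.neg (ZMod D)ˣ), ← sum_neg_distrib]
        refine sum_congr rfl fun t _ => ?_
        rw [Equiv.neg_apply, neg_neg, hk t]
        ring
      rw [h1, h2, hexp k]
      ring
    have hzero := odd_orth (D := D) (ψ := fun t => ((ψ t : ℚ) : ℂ)) (by
      intro t
      rw [hψodd t]
      push_cast
      ring) (by
      intro j
      by_cases hj : j = 0
      · subst hj
        refine sum_eq_zero fun t _ => ?_
        rw [mul_zero]
        unfold lft
        rw [if_pos rfl, mul_zero]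
      · have h0 : 0 < j.val := Nat.pos_of_ne_zero fun h => hj ((ZMod.val_eq_zero j).1 h)
        have h1 := ZMod.val_lt j
        have h2 : ∀ t : (ZMod D)ˣ, ((ψ t : ℚ) : ℂ) * lft (N := D) (saw 1) ((t : ZMod D) * j) =
            ((ψ t * Sf D ((j.val : ℚ) / D) t : ℚ) : ℂ) := by
          intro t
          have h3 := lft_Sf t h0 h1
          rw [ZMod.natCast_zmod_val] at h3
          rw [h3]
          push_cast
          ring
        rw [sum_congr rfl fun t _ => h2 t, ← Rat.cast_sum, hpair _ (Sf_odd (pt_div h0 h1))]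
        have h4 : φ (Sf D ((j.val : ℚ) / D)) = 0 := by
          have h5 : φ (Sf D ((j.val : ℚ) / D)) ∈ Submodule.map φ (Submodule.span ℚ
              {f | ∃ j : ℕ, 0 < j ∧ j < D ∧ f = Sf D ((j : ℚ) / D)}) :=
            Submodule.mem_map_of_mem (Submodule.subset_span ⟨_, h0, h1, rfl⟩)
          rw [hφS] at h5
          exact (Submodule.mem_bot ℚ).1 h5
        rw [h4, mul_zero, Rat.cast_zero])
    apply hφf
    have h1 := hpair f hf
    rw [sum_eq_zero fun t _ => by
      have h2 := hzero t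
      have h3 : ψ t = 0 := by exact_mod_cast h2
      rw [h3, zero_mul]] at h1
    linarith

end Pool.Agent.RCM
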