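import Pool.Agent.RCM.Adj
import Pool.Agent.RCM.Cond

/-!
All levels, block COMB, part 7: one line of exceptions for all levels together.
-/

set_option autoImplicit false

namespace Pool.Agent.RCM

open Finset Pool.Agent.Helper99.Rohr Pool.Agent.ROH Pool.Agent.ROH8 Pool.Agent.RHK

/-- a tuple of level `M`, without nonpositive integers, for which Rohrlich's equivalence fails -/
def Viol {r : ℕ} (a : Fin r → ℚ) (M : ℕ) : Prop :=
  0 < M ∧ (∀ i, ∃ z : ℤ, (M : ℚ) * a i = z) ∧ (∀ (i : Fin r) (n : ℕ), a i ≠ -(n : ℚ)) ∧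
    ¬ (GammaMult a ↔ ∀ m : ℕ, 1 ≤ m → m ≤ M → Nat.Coprime m M →
      ∑ i, Int.fract ((m : ℚ) * a i) = (r : ℚ) / 2)

/-- the normalised class function -/
noncomputable def nf {r : ℕ} (a : Fin r → ℚ) (m : ℕ) : ℚ :=
  (∑ i, Int.fract ((m : ℚ) * a i) - ((r : ℚ) - intCount a) / 2) / intCount a

theorem nf_congr {r : ℕ} {a : Fin r → ℚ} {M : ℕ} (h : Viol a M) {m m' : ℕ} (hm : m ≡ m' [MOD M]) :
    nf a m = nf a m' := by
  unfold nf
  rw [sum_congr rfl fun i _ => ROH.fract_congr hm (h.2.1 i)]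

/-- two violating tuples have the same normalised class function -/
theorem viol_line (hI : ∀ D : ℕ, 2 < D → ∃ J : Finset ℕ, Ind D J ∧ D.totient ≤ 2 * J.card)
    {r r' : ℕ} {a : Fin r → ℚ} {a' : Fin r' → ℚ} {M M' : ℕ} (h : Viol a M) (h' : Viol a' M') :
    0 < intCount a ∧ (∃ m : ℕ, m.Coprime (3 * M * M') ∧ nf a m ≠ 0) ∧
      ∀ m : ℕ, m.Coprime (3 * M * M') → nf a m = nf a' m := by
  have hM := h.1
  have hM' := h'.1
  set D := 3 * M * M' with hDdef
  have hD : 2 < D := by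
    have : 0 < M * M' := Nat.mul_pos hM hM'
    rw [hDdef, mul_assoc]
    omega
  obtain ⟨J, hJ, hc⟩ := hI D hD
  obtain ⟨U, ⟨m0, hm0, hU0⟩, hU⟩ := hJ.line hc
  have cl : ∀ {r : ℕ} {a : Fin r → ℚ} {M : ℕ}, Viol a M → M ∣ D → ClassLevel D M a := by
    rintro r a M h ⟨k, hk⟩
    apply classLevel_of_dvd
    intro i
    obtain ⟨z, hz⟩ := h.2.1 i
    refine ⟨k * z, ?_⟩
    rw [hk]
    push_cast
    rw [← hz]
    ring
  have hMD : M ∣ D := ⟨3 * M', by rw [hDdef]; ring⟩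
  have hMD' : M' ∣ D := ⟨3 * M, by rw [hDdef]; ring⟩
  obtain ⟨h0, h1⟩ := hU r a M hM h.2.1 h.2.2.1 (cl h hMD) h.2.2.2
  obtain ⟨h0', h1'⟩ := hU r' a' M' hM' h'.2.1 h'.2.2.1 (cl h' hMD') h'.2.2.2
  have e : ∀ {r : ℕ} {a : Fin r → ℚ} {M : ℕ}, M ∣ D → 0 < intCount a →
      (∀ m : ℕ, m.Coprime (M * D) → ∑ i, Int.fract ((m : ℚ) * a i) =
        ((r : ℚ) - intCount a) / 2 + intCount a * U m) → ∀ m : ℕ, m.Coprime D → nf a m = U m := by
    intro r a M hMD h0 h1 m hm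
    have hn : (intCount a : ℚ) ≠ 0 := by exact_mod_cast h0.ne'
    unfold nf
    rw [h1 m (Nat.Coprime.mul_right (hm.coprime_dvd_right hMD) hm)]
    field_simp
    ring
  refine ⟨h0, ⟨m0, hm0, ?_⟩, fun m hm => ?_⟩
  · rw [e hMD h0 h1 m0 hm0]
    exact hU0
  · rw [e hMD h0 h1 m hm, e hMD' h0' h1' m hm]

theorem coprime_of_modEq {a b M : ℕ} (h : a ≡ b [MOD M]) (hb : b.Coprime M) : a.Coprime M := by
  unfold Nat.Coprime at hb ⊢
  rw [h.gcd_eq]
  exact hb

/-- **one line of exceptions for all levels** -/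
theorem line_all (hI : ∀ D : ℕ, 2 < D → ∃ J : Finset ℕ, Ind D J ∧ D.totient ≤ 2 * J.card) :
    ∃ (D₀ : ℕ) (U : ℕ → ℚ), 0 < D₀ ∧
      (∀ m m' : ℕ, m.Coprime D₀ → m'.Coprime D₀ → m ≡ m' [MOD D₀] → U m = U m') ∧
      (∃ m : ℕ, m.Coprime D₀ ∧ U m ≠ 0) ∧
      ∀ (r : ℕ) (a : Fin r → ℚ) (M : ℕ), Viol a M → D₀ ∣ M ∧ 0 < intCount a ∧
        (∀ m : ℕ, m.Coprime M → ∑ i, Int.fract ((m : ℚ) * a i) =
          ((r : ℚ) - intCount a) / 2 + intCount a * U m) ∧
        ∀ D : ℕ, 0 < D → ClassLevel D M a → D₀ ∣ D := by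
  classical
  by_cases hex : ∃ (r : ℕ) (a : Fin r → ℚ) (M : ℕ), Viol a M
  · obtain ⟨r0, a0, M0, hv0⟩ := hex
    have hM0 := hv0.1
    obtain ⟨D₀, hD0, hD0M, hcong, hcond⟩ := conductor (f := nf a0) hM0 fun m m' h => nf_congr hv0 h
    have hlift : ∀ m : ℕ, ∃ y : ℕ, m.Coprime D₀ → y.Coprime M0 ∧ y ≡ m [MOD D₀] := by
      intro m
      by_cases hm : m.Coprime D₀
      · obtain ⟨y, h1, h2⟩ := lift_coprime hD0 hM0 hm
        exact ⟨y, fun _ => ⟨h1, h2⟩⟩
      · exact ⟨0, fun h => absurd h hm⟩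
    choose Y hY using hlift
    refine ⟨D₀, fun m => nf a0 (Y m), hD0, ?_, ?_, ?_⟩
    · intro m m' hm hm' hmm
      obtain ⟨h1, h2⟩ := hY m hm
      obtain ⟨h3, h4⟩ := hY m' hm'
      exact hcong _ _ h1 h3 ((h2.trans hmm).trans h4.symm)
    · obtain ⟨-, ⟨m, hm, hne⟩, -⟩ := viol_line hI hv0 hv0
      have hmM : m.Coprime M0 := hm.coprime_dvd_right ⟨3 * M0, by ring⟩
      have hmD := hmM.coprime_dvd_right hD0M
      obtain ⟨h1, h2⟩ := hY m hmD
      refine ⟨m, hmD, ?_⟩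
      show nf a0 (Y m) ≠ 0
      rw [hcong _ _ h1 hmM h2]
      exact hne
    · intro r a M hv
      have hM := hv.1
      obtain ⟨h0, -, heq⟩ := viol_line hI hv hv0
      have hn : (intCount a : ℚ) ≠ 0 := by exact_mod_cast h0.ne'
      have hval : ∀ m : ℕ, ∑ i, Int.fract ((m : ℚ) * a i) =
          ((r : ℚ) - intCount a) / 2 + intCount a * nf a m := by
        intro m
        unfold nf
        field_simp
        ring
      -- comparison on integers prime to a modulus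
      have key : ∀ D : ℕ, 0 < D → (∀ m m' : ℕ, m.Coprime (M * D) → m'.Coprime (M * D) →
          m ≡ m' [MOD D] → nf a m = nf a m') → D₀ ∣ D := by
        intro D hD hcl
        refine hcond D hD fun m m' hm hm' hmm => ?_
        have hpos : 0 < M0 * D := Nat.mul_pos hM0 hD
        obtain ⟨x, hx1, hx2⟩ := lift_coprime (M := 3 * M * M0 * D) hpos (by positivity) hm
        obtain ⟨x', hx1', hx2'⟩ := lift_coprime (M := 3 * M * M0 * D) hpos (by positivity) hm'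
        have c : ∀ x : ℕ, x.Coprime (3 * M * M0 * D) → x.Coprime (3 * M * M0) ∧ x.Coprime (M * D) :=
          fun x hx => ⟨hx.coprime_dvd_right ⟨D, by ring⟩, hx.coprime_dvd_right ⟨3 * M0, by ring⟩⟩
        have e1 : nf a0 m = nf a0 x := (nf_congr hv0 (hx2.of_mul_right D)).symm
        have e2 : nf a0 m' = nf a0 x' := (nf_congr hv0 (hx2'.of_mul_right D)).symm
        rw [e1, e2, ← heq x (c x hx1).1, ← heq x' (c x' hx1').1]
        exact hcl x x' (c x hx1).2 (c x' hx1').2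
          (((hx2.of_mul_left M0).trans hmm).trans (hx2'.of_mul_left M0).symm)
      have hdM : D₀ ∣ M := key M hM fun m m' _ _ hmm => nf_congr hv hmm
      refine ⟨hdM, h0, ?_, ?_⟩
      · intro m hm
        rw [hval m]
        congr 2
        obtain ⟨x, hx1, hx2⟩ := lift_coprime (M := 3 * M * M0) hM (by positivity) hm
        have hxM0 : x.Coprime M0 := hx1.coprime_dvd_right ⟨3 * M, by ring⟩
        obtain ⟨h1, h2⟩ := hY m (hm.coprime_dvd_right hdM)
        rw [← nf_congr hv hx2, heq x hx1]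
        exact hcong _ _ hxM0 h1 ((hx2.of_dvd hdM).trans h2.symm)
      · intro D hD hcl
        refine key D hD fun m m' hm hm' hmm => ?_
        unfold nf
        rw [hcl m m' hm hm' hmm]
  · refine ⟨1, fun _ => 1, one_pos, fun _ _ _ _ _ => rfl, ⟨1, Nat.coprime_one_left _, one_ne_zero⟩, ?_⟩
    intro r a M hv
    exact absurd ⟨r, a, M, hv⟩ hex

/-- **Rohrlich's question for all tuples of nonintegral rationals** -/
theorem nonintegral_all (hI : ∀ D : ℕ, 2 < D → ∃ J : Finset ℕ, Ind D J ∧ D.totient ≤ 2 * J.card)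
    {r : ℕ} (a : Fin r → ℚ) (M : ℕ) (hM : 0 < M) (hMa : ∀ i, ∃ z : ℤ, (M : ℚ) * a i = z)
    (hni : ∀ (i : Fin r) (z : ℤ), a i ≠ z) :
    GammaMult a ↔ ∀ m : ℕ, 1 ≤ m → m ≤ M → Nat.Coprime m M →
      ∑ i, Int.fract ((m : ℚ) * a i) = (r : ℚ) / 2 := by
  by_contra hne
  have hv : Viol a M := ⟨hM, hMa, fun i n h0 => hni i (-(n : ℤ)) (by push_cast; exact h0), hne⟩
  have h1 := (viol_line hI hv hv).1
  rw [intCount_eq_zero hni] at h1
  exact lt_irrefl _ h1

end Pool.Agent.RCM
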